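import Pool.Agent.V5helper78.BR.MeanDefs

/-!
# The pull-back of a metric by a map of `M`
-/

set_option autoImplicit false

namespace Pool.Agent.V5helper78.ML

open Set Metric
open Pool.Agent.Q176.SM

variable {n : ℕ}

/-- The pull-back `ψ^*g'`: its value at `x` on `v`, `w` is `g'_{ψ(x)}(dψ_x v, dψ_x w)`. The derivative `dψ_x` is
taken within `M`. -/
noncomputable def pull (g' : E n → E n → E n → ℝ) (ψ : E n → E n) (x v w : E n) : ℝ :=
  g' (ψ x) (fderivWithin ℝ ψ (M n) x v) (fderivWithin ℝ ψ (M n) x w)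

end Pool.Agent.V5helper78.ML
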