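import Pool.Agent.V5helper78.EM.Pm
import Pool.Agent.V5helper78.EM.PullDefs
import Pool.Agent.V5helper78.BR.Brd

/-!
# The statement for maps
-/

set_option autoImplicit false
set_option maxSynthPendingDepth 3

namespace Pool.Agent.V5helper78.EM

open Set Metric Filter Topology MeasureTheory
open scoped ContDiff InnerProductSpace BigOperators
open Pool.Agent.Q176.BR Pool.Agent.V5helper78.BR
open Pool.Agent.V5helper78 Pool.Agent.Q176

variable {n : ℕ} {g g' : E n → E n → E n → ℝ} {ψ : E n → E n}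

theorem pull_eq (hg' : SM.IsMetric g') (x v w : E n) :
    ML.pull g' ψ x v w = pl (clm g') ψ x v w := by
  unfold ML.pull
  rw [pl_apply, clm_apply hg']
  rfl

theorem mean_pull (hg : SM.IsMetric g) (hg' : SM.IsMetric g') (x : E n) :
    ML.mean g (ML.pull g' ψ) x = mn (clm g) (fp (clm g') ψ) x := by
  unfold ML.mean mn di nm fp nm
  simp only [clm_apply hg, pull_eq hg', pl_apply]

theorem result_maps (hn : 2 ≤ n) (hg : SM.IsSimple g) (hg' : SM.IsMetric g')
    (hd : ∀ x ∈ bdM n, ∀ y ∈ bdM n, SM.rdist g x y ≤ SM.rdist g' x y)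
    (hs : ContDiffOn ℝ ∞ ψ (M n)) (hmaps : MapsTo ψ (M n) (M n)) (hb : ∀ x ∈ bdM n, ψ x = x) :
    ML.vol g ≤ ∫ x in M n, ML.mean g (ML.pull g' ψ) x * ML.dens g x ∧
      (SM.IsSimple g' → ∫ x in M n, ML.mean g (ML.pull g' ψ) x * ML.dens g x ≤ ML.vol g →
        SM.IsDiffeo ψ (M n) (M n) ∧ ∀ x ∈ M n, ML.pull g' ψ x = g x) := by
  have hm := hg.toIsMetric
  have hψ : IsMp ψ := ⟨hs, hmaps, hb⟩
  have hd' : ∀ x ∈ bdM n, ∀ y ∈ bdM n, rdist (clm g) x y ≤ rdist (clm g') x y := by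
    intro x hx y hy
    rw [clm_rdist hm, clm_rdist hg']
    exact hd x hx y hy
  have hF := hψ.isLen (clm_metric hg')
  have hd2 : ∀ x ∈ bdM n, ∀ y ∈ bdM n,
      nm (clm g) x (lg (clm g) x y) ≤ lf (clm g) (fp (clm g') ψ) x y := by
    intro x hx y hy
    rw [← rdist_nm (clm_simple hg) (bd_sub hx) (bd_sub hy)]
    exact (hd' x hx y hy).trans (hψ.rdist_le (clm_simple hg) hx hy)
  unfold ML.vol
  simp only [dens_eq hm, mean_pull hm hg']
  refine ⟨mean_ineq hn (clm_simple hg) hF hd2, fun hs' h => ?_⟩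
  have h1 := mean_eq_case hn (clm_simple hg) hF hd2 h
  have h2 := isEq_of (clm_simple hg) (clm_simple hs') hψ hd' h1
  refine ⟨⟨h2.bij hn, hs, h2.inv hn⟩, fun x hx => ?_⟩
  funext v w
  rw [pull_eq hg', h2.isom hn hx, clm_apply hm]

end Pool.Agent.V5helper78.EM
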