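import Pool.Agent.V5helper78.EM.Cone
import Pool.Agent.V5helper78.EM.Brd

/-!
# The statement on the cone for maps
-/

set_option autoImplicit false
set_option maxSynthPendingDepth 3

namespace Pool.Agent.V5helper78.EM

open Set Metric Filter Topology MeasureTheory
open scoped ContDiff InnerProductSpace BigOperators
open Pool.Agent.Q176.BR Pool.Agent.V5helper78.BR
open Pool.Agent.V5helper78 Pool.Agent.Q176

variable {n : ℕ} {g g' : E n → E n → E n → ℝ} {ψ : E n → E n}

theorem gm_pull (hg' : SM.IsMetric g') (x : E n) :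
    ML.gm (ML.pull g' ψ) x = gram (pl (clm g') ψ x) := by
  ext i j
  unfold ML.gm
  rw [Matrix.of_apply, gram_apply, pull_eq hg']
  rfl

theorem dens_pull (hg' : SM.IsMetric g') (x : E n) :
    ML.dens (ML.pull g' ψ) x = √(gram (pl (clm g') ψ x)).det := by
  unfold ML.dens
  rw [gm_pull hg']

theorem cone_fld (hn : 2 ≤ n) (hg : SM.IsMetric g) (hg' : SM.IsMetric g') {z : E n} (hz : z ∈ M n)
    (h : ML.PartConf g (ML.pull g' ψ) z ∨
      ML.mean g (ML.pull g' ψ) z ≤ 1 + (ML.dens (ML.pull g' ψ) z / ML.dens g z - 1) / n) :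
    mn (clm g) (fp (clm g') ψ) z ≤
      1 + (√(gram (pl (clm g') ψ z)).det / √(gram (clm g z)).det - 1) / n := by
  rcases h with ⟨k, s, e, hk, hs, he, h2⟩ | h2
  · refine pc_le_pl hn (clm_metric hg) hz hk hs (e := e) (fun i j => ?_) (fun v w => ?_)
    · rw [clm_apply hg]
      exact he i j
    · simp only [← pull_eq hg', clm_apply hg]
      exact h2 v w
  · rw [mean_pull hg hg', dens_pull hg', dens_eq hg] at h2
    exact h2

theorem result_cone_maps (hn : 2 ≤ n) (hg : SM.IsSimple g) (hg' : SM.IsMetric g')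
    (hd : ∀ x ∈ bdM n, ∀ y ∈ bdM n, SM.rdist g x y ≤ SM.rdist g' x y)
    (hs : ContDiffOn ℝ ∞ ψ (M n)) (hmaps : MapsTo ψ (M n) (M n)) (hinj : InjOn ψ (M n))
    (hb : ∀ x ∈ bdM n, ψ x = x)
    (h : ∀ x ∈ M n, ML.PartConf g (ML.pull g' ψ) x ∨
      ML.mean g (ML.pull g' ψ) x ≤ 1 + (ML.dens (ML.pull g' ψ) x / ML.dens g x - 1) / n) :
    ML.vol g ≤ ML.vol g' ∧ (SM.IsSimple g' →
      (ML.vol g' ≤ ML.vol g ∨ ∀ x ∈ bdM n, ∀ y ∈ bdM n, SM.rdist g' x y ≤ SM.rdist g x y) →
        SM.IsDiffeo ψ (M n) (M n) ∧ ∀ x ∈ M n, ML.pull g' ψ x = g x) := by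
  have hm := hg.toIsMetric
  have hψ : IsMp ψ := ⟨hs, hmaps, hb⟩
  have hS := clm_simple hg
  have hS' := clm_metric hg'
  have hF := hψ.isLen hS'
  have hd2 : ∀ x ∈ bdM n, ∀ y ∈ bdM n,
      nm (clm g) x (lg (clm g) x y) ≤ lf (clm g) (fp (clm g') ψ) x y := by
    intro x hx y hy
    rw [← rdist_nm hS (bd_sub hx) (bd_sub hy), clm_rdist hm]
    refine (hd x hx y hy).trans ?_
    rw [← clm_rdist hg']
    exact hψ.rdist_le hS hx hy
  obtain ⟨h1, h2⟩ := cone_maps hn hS hS' hψ hinj hd2 (fun z hz => cone_fld hn hm hg' hz (h z hz))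
  have e1 : ML.vol g = ∫ z in M n, √(gram (clm g z)).det := by
    unfold ML.vol
    simp only [dens_eq hm]
  have e2 : ML.vol g' = ∫ z in M n, √(gram (clm g' z)).det := by
    unfold ML.vol
    simp only [dens_eq hg']
  refine ⟨by rw [e1, e2]; exact h1, fun hs' h3 => ?_⟩
  have h4 : ML.vol g' ≤ ML.vol g := by
    rcases h3 with h3 | h3
    · exact h3
    have h5 := vl_eq hn hS (clm_simple hs') (fun x hx y hy => by
      rw [clm_rdist hm, clm_rdist hg']
      exact le_antisymm (hd x hx y hy) (h3 x hx y hy))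
    rw [lintegral_vl hS.toIsMetric, lintegral_vl hS', ENNReal.ofReal_eq_ofReal_iff
      (integral_nonneg fun z => Real.sqrt_nonneg _)
      (integral_nonneg fun z => Real.sqrt_nonneg _)] at h5
    rw [e1, e2]
    exact h5.le
  refine (result_maps hn hg hg' hd hs hmaps hb).2 hs' ?_
  rw [e1, e2] at h4
  rw [e1]
  simp only [dens_eq hm, mean_pull hm hg']
  exact h2 h4

end Pool.Agent.V5helper78.EM
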