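import Pool.Agent.V5helper78.EM.PullDefs

/-!
# Metrics of the form `dr² + φ² dθ²` in polar coordinates at a point
-/

set_option autoImplicit false

namespace Pool.Agent.V5helper78.ML

open Set Metric
open Pool.Agent.Q176.SM

variable {n : ℕ}

/-- `G` is the inverse of the exponential map of `g` at `p`. -/
def IsLog (g : E n → E n → E n → ℝ) (p : E n) (G : E n → E n) : Prop :=
  ∀ x ∈ M n, IsExp g p (G x) x

/-- The metric `g` is isotropic at `p`: in polar coordinates `exp_p (r θ)` it has the form `dr² + φ² dθ²` with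
a function `φ` of `(r, θ)`. In terms of `G = exp_p⁻¹`: at each point `x ≠ p` of `M` there is `s > 0` such that
`g_x(w, w) = s g_p(dG w, dG w)` for all `w` with `g_p(G x, dG w) = 0`. (By the lemma of Gauss these `w` are the
vectors which are orthogonal to the geodesic from `p` to `x`.) -/
def IsotropicAt (g : E n → E n → E n → ℝ) (p : E n) : Prop :=
  ∃ G : E n → E n, IsLog g p G ∧ ∀ x ∈ M n, x ≠ p → ∃ s : ℝ, 0 < s ∧ ∀ w : E n,
    g p (G x) (fderivWithin ℝ G (M n) x w) = 0 →
      g x w w = s * g p (fderivWithin ℝ G (M n) x w) (fderivWithin ℝ G (M n) x w)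

/-- The metrics `g` and `g'` are proportional on the geodesic spheres around `p` for the identification of
the points `exp_p v` and `exp'_p (L v)`, where `L` is the linear map of `T_p M` which maps `exp_p⁻¹ q` to
`(exp'_p)⁻¹ q` for all boundary points `q`. In terms of `G = exp_p⁻¹` and `G' = (exp'_p)⁻¹`: if `x ≠ p` and `y`
are points of `M` with `G' y = L (G x)`, then there is `s > 0` such that `g'_y(w', w') = s g_x(w, w)` for all
`w`, `w'` with `dG' w' = L (dG w)` and `g_p(G x, dG w) = 0`. -/
def ProportionalOnSpheres (g g' : E n → E n → E n → ℝ) (p : E n) : Prop :=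
  ∃ (G G' : E n → E n) (L : E n →L[ℝ] E n), IsLog g p G ∧ IsLog g' p G' ∧
    (∀ q ∈ bdM n, G' q = L (G q)) ∧
    ∀ x ∈ M n, ∀ y ∈ M n, x ≠ p → G' y = L (G x) → ∃ s : ℝ, 0 < s ∧ ∀ w w' : E n,
      fderivWithin ℝ G' (M n) y w' = L (fderivWithin ℝ G (M n) x w) →
        g p (G x) (fderivWithin ℝ G (M n) x w) = 0 → g' y w' w' = s * g x w w

end Pool.Agent.V5helper78.ML
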