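import Pool.Agent.V5helper78.EM.Pol
import Pool.Agent.V5helper78.EM.BrdC
import Pool.Agent.V5helper78.EM.IsoDefs

/-!
# The statement on isotropic metrics
-/

set_option autoImplicit false
set_option maxSynthPendingDepth 3

namespace Pool.Agent.V5helper78.EM

open Set Metric Filter Topology MeasureTheory
open scoped ContDiff InnerProductSpace BigOperators
open Pool.Agent.Q176.BR Pool.Agent.V5helper78.BR
open Pool.Agent.V5helper78 Pool.Agent.Q176

variable {n : ℕ} {g g' : E n → E n → E n → ℝ} {p : E n}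

theorem log_eq (hg : SM.IsSimple g) (hp : p ∈ M n) {G : E n → E n} (hG : ML.IsLog g p G) {x : E n}
    (hx : x ∈ M n) : G x = lg (clm g) p x :=
  (clm_simple hg).eq_lg hp ((clm_exp hg.toIsMetric).2 (hG x hx))

theorem dlog_eq (hg : SM.IsSimple g) (hp : p ∈ M n) {G : E n → E n} (hG : ML.IsLog g p G) {x : E n}
    (hx : x ∈ M n) : fderivWithin ℝ G (M n) x = dlg (clm g) p x :=
  fderivWithin_congr (fun _ hy => log_eq hg hp hG hy) (log_eq hg hp hG hx)

theorem sph_main (hn : 3 ≤ n) (hg : SM.IsSimple g) (hg' : SM.IsSimple g')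
    (hd : ∀ x ∈ bdM n, ∀ y ∈ bdM n, SM.rdist g x y = SM.rdist g' x y) (hp : p ∈ bdM n)
    {L : E n →L[ℝ] E n} (hL : IsIso (clm g) (clm g') p L)
    (h : ∀ z ∈ M n, p ≠ z → ∃ s : ℝ, 0 < s ∧ ∀ w, clm g z (tv (clm g) p z) w = 0 →
      pl (clm g') (pm (clm g) (clm g') p L) z w w = s * clm g z w w) :
    ∃ ψ : E n → E n, SM.IsDiffeo ψ (M n) (M n) ∧ (∀ x ∈ bdM n, ψ x = x) ∧
      ∀ x ∈ M n, ML.pull g' ψ x = g x := by
  have hm := hg.toIsMetric
  have hm' := hg'.toIsMetric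
  have hS := clm_simple hg
  have hS' := clm_simple hg'
  have hψ := hL.isMp hS hS' hp
  have hinj := hL.pm_inj hS hS' hp
  have h1 := result_cone_maps (ψ := pm (clm g) (clm g') p L) (by omega) hg hm'
    (fun x hx y hy => (hd x hx y hy).le) hψ.smooth hψ.maps hinj hψ.bd (fun z hz => ?_)
  · obtain ⟨h2, h3⟩ := h1.2 hg' (Or.inr fun x hx y hy => (hd x hx y hy).ge)
    exact ⟨_, h2, hψ.bd, h3⟩
  · refine Or.inr ?_
    rw [mean_pull hm hm', dens_pull hm', dens_eq hm]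
    exact hL.sph_cone hn hS hS' hp hz (h z hz)

theorem exists_isIso (hg : IsSimple (clm g)) (hg' : IsSimple (clm g'))
    (hd : ∀ x ∈ bdM n, ∀ y ∈ bdM n, rdist (clm g) x y = rdist (clm g') x y) (hp : p ∈ bdM n) :
    ∃ L, IsIso (clm g) (clm g') p L := by
  obtain ⟨L, h1, -, h3, h4, h5⟩ := exists_iso hg hg' hd hp
  exact ⟨L, h1.ne', h4, h5, h3⟩

/-- The linear map is determined by the boundary points. -/
theorem IsIso.unique {a b : Fld n} (ha : IsSimple a) (hp : p ∈ bdM n)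
    {L A : E n →L[ℝ] E n} (hL : IsIso a b p L) (hA : ∀ q ∈ bdM n, lg b p q = A (lg a p q)) :
    A = L := by
  have hpM := bd_sub hp
  have h1 := ha.isOpen_lg hpM
  have h2 : lg a p 0 ∈ lg a p '' ball 0 1 := mem_image_of_mem _ (mem_ball_self one_pos)
  refine clm_eq_of_open (h1.mem_nhds h2) ?_
  rintro _ ⟨y, hy, rfl⟩
  have hpy : p ≠ y := by
    rintro rfl
    exact bd_not_ball hp hy
  obtain ⟨q, hq, t, ht, h3⟩ := exists_exit ha hpM hy hpy
  rw [h3, map_smul, map_smul, ← hA q hq, ← hL.lg_eq q hq]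

theorem result_iso (hn : 3 ≤ n) (hg : SM.IsSimple g) (hg' : SM.IsSimple g')
    (hd : ∀ x ∈ bdM n, ∀ y ∈ bdM n, SM.rdist g x y = SM.rdist g' x y) (hp : p ∈ bdM n)
    (h : (ML.IsotropicAt g p ∧ ML.IsotropicAt g' p) ∨ ML.ProportionalOnSpheres g g' p) :
    ∃ ψ : E n → E n, SM.IsDiffeo ψ (M n) (M n) ∧ (∀ x ∈ bdM n, ψ x = x) ∧
      ∀ x ∈ M n, ML.pull g' ψ x = g x := by
  have hm := hg.toIsMetric
  have hm' := hg'.toIsMetric
  have hS := clm_simple hg
  have hS' := clm_simple hg'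
  have hpM := bd_sub hp
  have hd' : ∀ x ∈ bdM n, ∀ y ∈ bdM n, rdist (clm g) x y = rdist (clm g') x y := by
    intro x hx y hy
    rw [clm_rdist hm, clm_rdist hm']
    exact hd x hx y hy
  obtain ⟨L, hL⟩ := exists_isIso hS hS' hd' hp
  refine sph_main hn hg hg' hd hp hL (fun z hz hpz => ?_)
  have hy := hL.pm_mem hS hS' hp hz
  have hlg := hL.lg_pm hS hS' hp hz
  rcases h with ⟨⟨G, hG, h1⟩, ⟨G', hG', h2⟩⟩ | ⟨G, G', A, hG, hG', hA, h1⟩
  · have hyp : pm (clm g) (clm g') p L z ≠ p := by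
      intro h0
      rw [h0, hS'.lg_self hpM] at hlg
      exact hS.lg_ne_zero hpM hz hpz (hL.inj hlg.symm)
    obtain ⟨s, hs, h3⟩ := h1 z hz hpz.symm
    obtain ⟨s', hs', h4⟩ := h2 _ hy hyp
    refine ⟨s' / s, by positivity, fun w hw => ?_⟩
    rw [hS.gauss hpM hz] at hw
    have h5 := h3 w (by rw [log_eq hg hpM hG hz, dlog_eq hg hpM hG hz, ← clm_apply hm]; exact hw)
    have h6 := h4 (dp (pm (clm g) (clm g') p L) z w) (by
      rw [log_eq hg' hpM hG' hy, dlog_eq hg' hpM hG' hy, hL.pm_der hS hS' hp hz, hlg,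
        ← clm_apply hm', hL.form]
      exact hw)
    rw [dlog_eq hg hpM hG hz] at h5
    rw [dlog_eq hg' hpM hG' hy, hL.pm_der hS hS' hp hz] at h6
    rw [pl_apply, clm_apply hm', clm_apply hm, h6, h5, ← clm_apply hm', hL.form, clm_apply hm]
    field_simp
  · have hAL : A = L := hL.unique hS hp (fun q hq => by
      rw [← log_eq hg' hpM hG' (bd_sub hq), ← log_eq hg hpM hG (bd_sub hq)]
      exact hA q hq)
    subst hAL
    obtain ⟨s, hs, h3⟩ := h1 z hz _ hy hpz.symm (by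
      rw [log_eq hg hpM hG hz, log_eq hg' hpM hG' hy]
      exact hlg)
    refine ⟨s, hs, fun w hw => ?_⟩
    rw [hS.gauss hpM hz] at hw
    have h4 := h3 w (dp (pm (clm g) (clm g') p A) z w) (by
      rw [dlog_eq hg' hpM hG' hy, dlog_eq hg hpM hG hz]
      exact hL.pm_der hS hS' hp hz w) (by
      rw [log_eq hg hpM hG hz, dlog_eq hg hpM hG hz, ← clm_apply hm]
      exact hw)
    rw [pl_apply, clm_apply hm', clm_apply hm]
    exact h4

end Pool.Agent.V5helper78.EM
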