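import Pool.Agent.V5helper78.EM.Pm

/-!
# Maps with a pull-back in the cone
-/

set_option autoImplicit false
set_option maxSynthPendingDepth 3

namespace Pool.Agent.V5helper78.EM

open Set Metric Filter Topology MeasureTheory
open scoped ContDiff InnerProductSpace BigOperators ENNReal
open Pool.Agent.Q176.BR Pool.Agent.V5helper78.BR

variable {n : ℕ} {g g' : Fld n} {ψ : E n → E n}

theorem bessel (hg : IsMetric g) {z : E n} {k : ℕ} {e : Fin k → E n}
    (he : ∀ i j, g z (e i) (e j) = if i = j then 1 else 0) (v : E n) :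
    ∑ i, g z (e i) v * g z (e i) v ≤ g z v v := by
  have h1 := hg.nonneg z (v - ∑ i, (g z (e i) v) • e i)
  have h2 : g z (∑ i, (g z (e i) v) • e i) v = ∑ i, g z (e i) v * g z (e i) v := by
    simp only [map_sum, map_smul, sum_apply, smul_apply, smul_eq_mul]
  have h3 : g z (∑ i, (g z (e i) v) • e i) (∑ i, (g z (e i) v) • e i) =
      ∑ i, g z (e i) v * g z (e i) v := by
    simp only [map_sum, map_smul, sum_apply, smul_apply, smul_eq_mul, he]
    simp
  simp only [map_sub, sub_apply] at h1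
  rw [hg.symm z v (∑ i, (g z (e i) v) • e i), h2, h3] at h1
  linarith

theorem pc_pos (hg : IsMetric g) {z : E n} {k : ℕ} {s : ℝ} {e : Fin k → E n} (hs : 0 < s)
    (he : ∀ i j, g z (e i) (e j) = if i = j then 1 else 0) {b : E n →L[ℝ] E n →L[ℝ] ℝ}
    (h : ∀ v w, b v w = g z v w + (s - 1) * ∑ i, g z (e i) v * g z (e i) w) {v : E n}
    (hv : v ≠ 0) : 0 < b v v := by
  rw [h]
  have h1 := bessel hg he v
  have h2 := hg.pos z v hv
  have h3 : 0 ≤ ∑ i, g z (e i) v * g z (e i) v :=
    Finset.sum_nonneg fun i _ => mul_self_nonneg _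
  rcases le_total 1 s with h4 | h4
  · have := mul_nonneg (sub_nonneg.2 h4) h3
    linarith
  · nlinarith

theorem pc_le_pl (hn : 2 ≤ n) (hg : IsMetric g) {z : E n} (hz : z ∈ M n) {k : ℕ}
    {s : ℝ} {e : Fin k → E n} (hk : 2 ≤ k) (hs : 0 < s)
    (he : ∀ i j, g z (e i) (e j) = if i = j then 1 else 0)
    (h : ∀ v w, pl g' ψ z v w = g z v w + (s - 1) * ∑ i, g z (e i) v * g z (e i) w) :
    mn g (fp g' ψ) z ≤ 1 + (√(gram (pl g' ψ z)).det / √(gram (g z)).det - 1) / n := by
  have hG : IsMetric (fun _ : E n => pl g' ψ z) := by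
    refine ⟨contDiff_const, fun x v w => ?_, fun x v hv => pc_pos hg hs he h hv⟩
    rw [h, h, hg.symm z v w]
    congr 2
    exact Finset.sum_congr rfl fun i _ => mul_comm _ _
  exact pc_le hn hg hG hz hk hs he h

theorem det_pl (z : E n) :
    (gram (pl g' ψ z)).det = (dp ψ z).det ^ 2 * (gram (g' (ψ z))).det := by
  have e1 := gram_comp ((g' (ψ z)).bilinearComp (ContinuousLinearMap.id ℝ (E n)) (dp ψ z))
    (pl g' ψ z) (dp ψ z) (fun v w => rfl)
  have e2 := gram_comp (g' (ψ z)).flip
    (((g' (ψ z)).bilinearComp (ContinuousLinearMap.id ℝ (E n)) (dp ψ z)).flip)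
    (dp ψ z) (fun v w => rfl)
  have e3 : gram (((g' (ψ z)).bilinearComp (ContinuousLinearMap.id ℝ (E n)) (dp ψ z)).flip) =
      (gram ((g' (ψ z)).bilinearComp (ContinuousLinearMap.id ℝ (E n)) (dp ψ z))).transpose := rfl
  have e4 : gram (g' (ψ z)).flip = (gram (g' (ψ z))).transpose := rfl
  rw [e3, e4] at e2
  have e5 := congrArg Matrix.det e1
  have e6 := congrArg Matrix.det e2
  simp only [Matrix.det_mul, Matrix.det_transpose, det_mtx] at e5 e6
  rw [e5, e6]
  ring

theorem sqrt_det_pl (z : E n) :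
    √(gram (pl g' ψ z)).det = |(dp ψ z).det| * √(gram (g' (ψ z))).det := by
  rw [det_pl, Real.sqrt_mul (sq_nonneg _), Real.sqrt_sq_eq_abs]

theorem continuousOn_sqrt_det_pl (hψ : IsMp ψ) (hg' : IsMetric g') :
    ContinuousOn (fun z => √(gram (pl g' ψ z)).det) (M n) := by
  have h1 : ContinuousOn (fun z => |(dp ψ z).det| * √(gram (g' (ψ z))).det) (M n) := by
    have c1 : Continuous (fun A : E n →L[ℝ] E n => A.det) := ContinuousLinearMap.continuous_det
    have c2 := (continuous_det hg').sqrt.comp_continuousOn hψ.smooth.continuousOn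
    exact ((c1.comp_continuousOn hψ.dpc).abs).mul c2
  exact h1.congr (fun z _ => sqrt_det_pl z)

theorem integral_pl_le (hψ : IsMp ψ) (hinj : InjOn ψ (M n)) (hg' : IsMetric g') :
    ∫ z in M n, √(gram (pl g' ψ z)).det ≤ ∫ z in M n, √(gram (g' z)).det := by
  have hs' : Continuous (fun z => √(gram (g' z)).det) := (continuous_det hg').sqrt
  have i2 : IntegrableOn (fun z => √(gram (g' z)).det) (M n) :=
    hs'.continuousOn.integrableOn_compact isCompact_M
  have h1 := integral_image_eq_integral_abs_det_fderiv_smul (μ := (volume : Measure (E n)))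
    (s := M n) measurableSet_closedBall (f := ψ) (f' := dp ψ) (fun z hz => hψ.dpd hz) hinj
    (fun y => √(gram (g' y)).det)
  simp only [smul_eq_mul] at h1
  simp only [sqrt_det_pl]
  rw [← h1]
  exact setIntegral_mono_set i2 (Eventually.of_forall fun z => Real.sqrt_nonneg _)
    (Eventually.of_forall (image_subset_iff.2 hψ.maps))

/-- **The cone condition for a map.** -/
theorem cone_maps (hn : 2 ≤ n) (hg : IsSimple g) (hg' : IsMetric g') (hψ : IsMp ψ)
    (hinj : InjOn ψ (M n))
    (hd : ∀ x ∈ bdM n, ∀ y ∈ bdM n, nm g x (lg g x y) ≤ lf g (fp g' ψ) x y)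
    (h : ∀ z ∈ M n,
      mn g (fp g' ψ) z ≤ 1 + (√(gram (pl g' ψ z)).det / √(gram (g z)).det - 1) / n) :
    (∫ z in M n, √(gram (g z)).det ≤ ∫ z in M n, √(gram (g' z)).det) ∧
    (∫ z in M n, √(gram (g' z)).det ≤ ∫ z in M n, √(gram (g z)).det →
      ∫ z in M n, mn g (fp g' ψ) z * √(gram (g z)).det ≤ ∫ z in M n, √(gram (g z)).det) := by
  have hm := hg.toIsMetric
  have hn0 : (0 : ℝ) < n := by
    have : (2 : ℝ) ≤ n := by exact_mod_cast hn
    linarith
  have hF := hψ.isLen hg'
  have hs : Continuous (fun z => √(gram (g z)).det) := (continuous_det hm).sqrt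
  have i1 : IntegrableOn (fun z => √(gram (g z)).det) (M n) :=
    hs.continuousOn.integrableOn_compact isCompact_M
  have i2 : IntegrableOn (fun z => √(gram (pl g' ψ z)).det) (M n) :=
    (continuousOn_sqrt_det_pl hψ hg').integrableOn_compact isCompact_M
  have h1 : ∫ z in M n, mn g (fp g' ψ) z * √(gram (g z)).det ≤
      ∫ z in M n, ((1 - 1 / n) * √(gram (g z)).det + 1 / n * √(gram (pl g' ψ z)).det) := by
    refine setIntegral_mono_on (integrableOn_mn hn hm hF) ((i1.const_mul _).add (i2.const_mul _))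
      measurableSet_closedBall (fun z hz => ?_)
    have h2 := mul_le_mul_of_nonneg_right (h z hz) (Real.sqrt_nonneg (gram (g z)).det)
    refine h2.trans_eq ?_
    have h3 := (Real.sqrt_pos.2 (hm.det_pos z)).ne'
    field_simp
    ring
  rw [integral_add (i1.const_mul _) (i2.const_mul _), integral_const_mul, integral_const_mul] at h1
  have h2 := mean_ineq hn hg hF hd
  have h3 := integral_pl_le hψ hinj hg'
  set V := ∫ z in M n, √(gram (g z)).det with hV
  set V' := ∫ z in M n, √(gram (g' z)).det with hV'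
  set W := ∫ z in M n, √(gram (pl g' ψ z)).det with hW
  have h4 : 1 / (n : ℝ) * W ≤ 1 / n * V' := by gcongr
  constructor
  · have h5 : 1 / (n : ℝ) * V ≤ 1 / n * V' := by linarith
    exact le_of_mul_le_mul_left h5 (by positivity)
  · intro h5
    have h6 : 1 / (n : ℝ) * V' ≤ 1 / n * V := by gcongr
    linarith

end Pool.Agent.V5helper78.EM
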