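import Pool.Agent.V5helper78.EM.Mean

/-!
# Minimizing curves
-/

set_option autoImplicit false
set_option maxSynthPendingDepth 3

namespace Pool.Agent.V5helper78.EM

open Set Metric Filter Topology MeasureTheory
open scoped ContDiff InnerProductSpace BigOperators
open Pool.Agent.Q176.BR Pool.Agent.V5helper78.BR

variable {n : ℕ} {g g' : Fld n}

/-- A curve in `M` with continuous derivative. -/
structure IsCrv (c d : ℝ → E n) : Prop where
  mem : ∀ t ∈ Icc (0 : ℝ) 1, c t ∈ M n
  der : ∀ t ∈ Icc (0 : ℝ) 1, HasDerivWithinAt c (d t) (Icc 0 1) t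
  cont : ContinuousOn d (Icc 0 1)

theorem IsCrv.contc {c d : ℝ → E n} (h : IsCrv c d) : ContinuousOn c (Icc 0 1) :=
  fun t ht => (h.der t ht).continuousWithinAt

theorem IsCrv.contDiffOn {c d : ℝ → E n} (h : IsCrv c d) : ContDiffOn ℝ 1 c (Icc 0 1) := by
  rw [contDiffOn_one_iff_derivWithin (uniqueDiffOn_Icc (zero_lt_one (α := ℝ)))]
  refine ⟨fun t ht => (h.der t ht).differentiableWithinAt, ?_⟩
  refine h.cont.congr (fun t ht => ?_)
  exact (h.der t ht).derivWithin (uniqueDiffOn_Icc (zero_lt_one (α := ℝ)) t ht)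

theorem IsCrv.len_eq {c d : ℝ → E n} (h : IsCrv c d) :
    len g c = ∫ t in (0 : ℝ)..1, nm g (c t) (d t) := by
  unfold len
  refine intervalIntegral.integral_congr (fun t ht => ?_)
  rw [uIcc_of_le zero_le_one] at ht
  rw [(h.der t ht).derivWithin (uniqueDiffOn_Icc (zero_lt_one (α := ℝ)) t ht)]
  rfl

/-- The distance from the starting point along the curve. -/
noncomputable def dst (g : Fld n) (c : ℝ → E n) (t : ℝ) : ℝ := nm g (c 0) (lg g (c 0) (c t))

theorem continuousOn_nm {c d : ℝ → E n} (hg : IsMetric g) (h : IsCrv c d) :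
    ContinuousOn (fun t => nm g (c t) (d t)) (Icc 0 1) := by
  have c5 : ContinuousOn (fun r => g (c r)) (Icc 0 1) :=
    hg.smooth.continuous.comp_continuousOn h.contc
  exact ((c5.clm_apply h.cont).clm_apply h.cont).sqrt

/-- The speed, extended to the line. -/
noncomputable def spd (g : Fld n) (c d : ℝ → E n) : ℝ → ℝ :=
  IccExtend zero_le_one ((Icc (0 : ℝ) 1).domRestrict fun t => nm g (c t) (d t))

theorem spd_eq {c d : ℝ → E n} {t : ℝ} (ht : t ∈ Icc (0 : ℝ) 1) :
    spd g c d t = nm g (c t) (d t) := by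
  unfold spd
  rw [IccExtend_of_mem _ _ ht]
  rfl

theorem continuous_spd {c d : ℝ → E n} (hg : IsMetric g) (h : IsCrv c d) :
    Continuous (spd g c d) :=
  (continuousOn_iff_continuous_domRestrict.1 (continuousOn_nm hg h)).Icc_extend'

theorem dst_cont {c d : ℝ → E n} (hg : IsSimple g) (h : IsCrv c d) :
    ContinuousOn (dst g c) (Icc 0 1) :=
  (continuousOn_nm_lg hg (h.mem 0 ⟨le_rfl, zero_le_one⟩)).comp h.contc (fun s hs => h.mem s hs)

theorem lg_der {c d : ℝ → E n} (hg : IsSimple g) (h : IsCrv c d) {t : ℝ}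
    (ht : t ∈ Icc (0 : ℝ) 1) : HasDerivWithinAt (fun s => lg g (c 0) (c s))
      (dlg g (c 0) (c t) (d t)) (Icc 0 1) t :=
  (hg.hasFDeriv (h.mem 0 ⟨le_rfl, zero_le_one⟩) (h.mem t ht)).comp_hasDerivWithinAt t
    (h.der t ht) (fun s hs => h.mem s hs)

/-- The distance grows at most like the length. -/
theorem dst_mono {c d : ℝ → E n} (hg : IsSimple g) (h : IsCrv c d) :
    MonotoneOn (fun t => (∫ r in (0 : ℝ)..t, spd g c d r) - dst g c t) (Icc 0 1) := by
  have hm := hg.toIsMetric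
  have hx := h.mem 0 ⟨le_rfl, zero_le_one⟩
  set x := c 0 with hxdef
  set w : ℝ → E n := fun s => lg g x (c s) with hw
  have hspd := continuous_spd hm h
  have key : ∀ ε > 0, MonotoneOn (fun t => (∫ r in (0 : ℝ)..t, spd g c d r) -
      √(g x (w t) (w t) + ε)) (Icc 0 1) := by
    intro ε hε
    have hpos : ∀ s, 0 < g x (w s) (w s) + ε := fun s =>
      add_pos_of_nonneg_of_pos (hm.nonneg x (w s)) hε
    have hd : ∀ t ∈ Ioo (0 : ℝ) 1, HasDerivAt (fun s => √(g x (w s) (w s) + ε))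
        (g x (w t) (dlg g x (c t) (d t)) / √(g x (w t) (w t) + ε)) t := by
      intro t ht
      have hti : t ∈ Icc (0 : ℝ) 1 := ⟨ht.1.le, ht.2.le⟩
      have h0 : HasDerivAt w (dlg g x (c t) (d t)) t :=
        (lg_der hg h hti).hasDerivAt (Icc_mem_nhds ht.1 ht.2)
      have h1 := hasDerivAt_form hm (hasDerivAt_const t x) h0 h0
      refine ((h1.add_const ε).sqrt (hpos t).ne').congr_deriv ?_
      rw [hm.symm x (dlg g x (c t) (d t)) (w t)]
      simp only [map_zero, zero_apply, zero_add]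
      have := (Real.sqrt_pos.2 (hpos t)).ne'
      field_simp
      ring
    have hc : ContinuousOn (fun t => (∫ r in (0 : ℝ)..t, spd g c d r) -
        √(g x (w t) (w t) + ε)) (Icc 0 1) := by
      have c1 : ContinuousOn w (Icc 0 1) := fun t ht => (lg_der hg h ht).continuousWithinAt
      have c2 : ContinuousOn (fun t => √(g x (w t) (w t) + ε)) (Icc 0 1) :=
        ((((g x).continuous.comp_continuousOn c1).clm_apply c1).add continuousOn_const).sqrt
      exact (intervalIntegral.continuous_primitive (fun a b => hspd.intervalIntegrable a b)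
        0).continuousOn.sub c2
    refine monotoneOn_of_deriv_nonneg (convex_Icc 0 1) hc ?_ ?_
    · intro t ht
      rw [interior_Icc] at ht
      exact ((hspd.integral_hasStrictDerivAt 0 t).hasDerivAt.sub
        (hd t ht)).differentiableAt.differentiableWithinAt
    · intro t ht
      rw [interior_Icc] at ht
      have hti : t ∈ Icc (0 : ℝ) 1 := ⟨ht.1.le, ht.2.le⟩
      have hD := (hspd.integral_hasStrictDerivAt 0 t).hasDerivAt.sub (hd t ht)
      have hD' : deriv (fun t => (∫ r in (0 : ℝ)..t, spd g c d r) - √(g x (w t) (w t) + ε)) t =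
        spd g c d t - g x (w t) (dlg g x (c t) (d t)) / √(g x (w t) (w t) + ε) := hD.deriv
      rw [hD', sub_nonneg, spd_eq hti, div_le_iff₀ (Real.sqrt_pos.2 (hpos t)),
        ← hg.gauss hx (h.mem t hti)]
      have h4 := hm.cauchy (c t) (tv g x (c t)) (d t)
      rw [hg.norm_tv hx (h.mem t hti)] at h4
      have h5 : √(g x (w t) (w t)) ≤ √(g x (w t) (w t) + ε) :=
        Real.sqrt_le_sqrt (by linarith)
      have h6 : 0 ≤ √(g (c t) (d t) (d t)) := Real.sqrt_nonneg _
      refine h4.trans ?_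
      unfold nm
      rw [mul_comm]
      exact mul_le_mul_of_nonneg_left h5 h6
  intro s hs t ht hst
  have lim : ∀ r, Tendsto (fun ε : ℝ => (∫ r in (0 : ℝ)..r, spd g c d r) -
      √(g x (w r) (w r) + ε)) (𝓝[>] 0) (𝓝 ((∫ r in (0 : ℝ)..r, spd g c d r) - dst g c r)) := by
    intro r
    have h1 : Tendsto (fun ε : ℝ => √(g x (w r) (w r) + ε)) (𝓝 0)
        (𝓝 (√(g x (w r) (w r) + 0))) := by
      have : Continuous (fun ε : ℝ => √(g x (w r) (w r) + ε)) := by fun_prop
      exact this.tendsto 0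
    rw [add_zero] at h1
    exact (tendsto_const_nhds.sub h1).mono_left nhdsWithin_le_nhds
  refine le_of_tendsto_of_tendsto (lim s) (lim t) ?_
  filter_upwards [self_mem_nhdsWithin] with ε hε
  exact key ε hε hs ht hst

theorem dst_zero {c : ℝ → E n} (hg : IsSimple g) (hx : c 0 ∈ M n) : dst g c 0 = 0 := by
  unfold dst
  rw [hg.lg_self hx]
  simp [nm]

/-- Along a minimizing curve, the distance from the starting point is the length. -/
theorem dst_eq {c d : ℝ → E n} (hg : IsSimple g) (h : IsCrv c d)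
    (hl : ∫ t in (0 : ℝ)..1, nm g (c t) (d t) = dst g c 1) {t : ℝ} (ht : t ∈ Icc (0 : ℝ) 1) :
    dst g c t = ∫ r in (0 : ℝ)..t, spd g c d r := by
  have hmono := dst_mono hg h
  have h0 : dst g c 0 = 0 := dst_zero hg (h.mem 0 ⟨le_rfl, zero_le_one⟩)
  have h1 : ∫ r in (0 : ℝ)..1, spd g c d r = dst g c 1 := by
    rw [← hl]
    refine intervalIntegral.integral_congr (fun s hs => ?_)
    rw [uIcc_of_le zero_le_one] at hs
    exact spd_eq hs
  have h2 := hmono ⟨le_rfl, zero_le_one⟩ ht ht.1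
  have h3 := hmono ht ⟨zero_le_one, le_rfl⟩ ht.2
  simp only [intervalIntegral.integral_same, h0, h1, sub_self] at h2 h3
  linarith

theorem dst_le {c d : ℝ → E n} (hg : IsSimple g) (h : IsCrv c d)
    (hl : ∫ t in (0 : ℝ)..1, nm g (c t) (d t) = dst g c 1) : MonotoneOn (dst g c) (Icc 0 1) := by
  intro s hs t ht hst
  rw [dst_eq hg h hl hs, dst_eq hg h hl ht]
  have hspd := continuous_spd hg.toIsMetric h
  have h1 : ∫ r in (0 : ℝ)..t, spd g c d r =
      (∫ r in (0 : ℝ)..s, spd g c d r) + ∫ r in s..t, spd g c d r :=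
    (intervalIntegral.integral_add_adjacent_intervals (hspd.intervalIntegrable _ _)
      (hspd.intervalIntegrable _ _)).symm
  have h2 : 0 ≤ ∫ r in s..t, spd g c d r := by
    refine intervalIntegral.integral_nonneg hst (fun r hr => ?_)
    rw [spd_eq ⟨hs.1.trans hr.1, hr.2.trans ht.2⟩]
    exact nm_nonneg _ _
  linarith

/-- The derivative of the distance. -/
theorem dst_der {c d : ℝ → E n} (hg : IsSimple g) (h : IsCrv c d)
    (hl : ∫ t in (0 : ℝ)..1, nm g (c t) (d t) = dst g c 1) {t : ℝ} (ht : t ∈ Ioo (0 : ℝ) 1) :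
    HasDerivAt (dst g c) (nm g (c t) (d t)) t := by
  have hspd := continuous_spd hg.toIsMetric h
  have h1 := (hspd.integral_hasStrictDerivAt 0 t).hasDerivAt
  rw [spd_eq ⟨ht.1.le, ht.2.le⟩] at h1
  refine h1.congr_of_eventuallyEq ?_
  filter_upwards [Icc_mem_nhds ht.1 ht.2] with s hs
  exact dst_eq hg h hl hs

/-- The velocity of a minimizing curve. -/
theorem vel_min {c d : ℝ → E n} (hg : IsSimple g) (h : IsCrv c d)
    (hl : ∫ t in (0 : ℝ)..1, nm g (c t) (d t) = dst g c 1) {t : ℝ} (ht : t ∈ Ioo (0 : ℝ) 1)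
    (hpos : 0 < dst g c t) : d t = (nm g (c t) (d t) / dst g c t) • tv g (c 0) (c t) := by
  have hm := hg.toIsMetric
  have hx := h.mem 0 ⟨le_rfl, zero_le_one⟩
  have hti : t ∈ Icc (0 : ℝ) 1 := ⟨ht.1.le, ht.2.le⟩
  have hct := h.mem t hti
  have hne : c 0 ≠ c t := by
    intro h1
    unfold dst at hpos
    rw [← h1, hg.lg_self hx] at hpos
    simp [nm] at hpos
  have h1 : HasDerivAt (fun s => lg g (c 0) (c s)) (dlg g (c 0) (c t) (d t)) t :=
    (lg_der hg h hti).hasDerivAt (Icc_mem_nhds ht.1 ht.2)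
  have h2 := hasDerivAt_form hm (hasDerivAt_const t (c 0)) h1 h1
  have h0 := hm.pos (c 0) _ (hg.lg_ne_zero hx hct hne)
  have h3 := h2.sqrt h0.ne'
  have h4 := (dst_der hg h hl ht).unique h3
  have h5 : √(g (c 0) (lg g (c 0) (c t)) (lg g (c 0) (c t))) = dst g c t := rfl
  rw [h5, hm.symm (c 0) (dlg g (c 0) (c t) (d t)), ← hg.gauss hx hct] at h4
  simp only [map_zero, zero_apply, zero_add] at h4
  have h6 : g (c t) (tv g (c 0) (c t)) (d t) = nm g (c t) (tv g (c 0) (c t)) * nm g (c t) (d t) := by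
    rw [nm_tv hg hx hct, h4]
    change _ = dst g c t * _
    field_simp
    ring
  have h7 := cs_eq hm (tv_ne hg hx hct hne) h6
  have h8 : g (c t) (tv g (c 0) (c t)) (tv g (c 0) (c t)) = dst g c t ^ 2 := by
    rw [← nm_sq hm, nm_tv hg hx hct]
    rfl
  rw [h6, h8, nm_tv hg hx hct] at h7
  have h9 : nm g (c 0) (lg g (c 0) (c t)) * nm g (c t) (d t) / dst g c t ^ 2 =
      nm g (c t) (d t) / dst g c t := by
    change dst g c t * _ / _ = _
    field_simp
  rw [h9] at h7
  exact h7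

/-- A minimizing curve runs on the geodesic. -/
theorem lg_min {c d : ℝ → E n} (hg : IsSimple g) (h : IsCrv c d)
    (hl : ∫ t in (0 : ℝ)..1, nm g (c t) (d t) = dst g c 1) (hne : c 0 ≠ c 1) {t : ℝ}
    (ht : t ∈ Icc (0 : ℝ) 1) :
    lg g (c 0) (c t) = (dst g c t / dst g c 1) • lg g (c 0) (c 1) := by
  have hm := hg.toIsMetric
  have hx := h.mem 0 ⟨le_rfl, zero_le_one⟩
  have h1pos : 0 < dst g c 1 :=
    nm_pos hm (hg.lg_ne_zero hx (h.mem 1 ⟨zero_le_one, le_rfl⟩) hne)
  have hz : ∀ s, dst g c s = 0 → lg g (c 0) (c s) = 0 := by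
    intro s hs
    by_contra h1
    exact (nm_pos hm (x := c 0) h1).ne' hs
  rcases (nm_nonneg (g := g) (c 0) (lg g (c 0) (c t))).lt_or_eq with hp | hp
  swap
  · have h2 : dst g c t = 0 := hp.symm
    rw [h2, zero_div, zero_smul, hz t h2]
  have hp' : 0 < dst g c t := hp
  have ht0 : 0 < t := by
    rcases ht.1.lt_or_eq with h2 | h2
    · exact h2
    · rw [← h2, dst_zero hg hx] at hp'
      exact absurd hp' (lt_irrefl _)
  rcases ht.2.lt_or_eq with ht1 | ht1
  swap
  · rw [ht1, div_self h1pos.ne', one_smul]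
  -- the normalised vector is constant on `[t, 1]`
  have hposs : ∀ s ∈ Icc t 1, 0 < dst g c s := fun s hs =>
    hp'.trans_le (dst_le hg h hl ht ⟨ht.1.trans hs.1, hs.2⟩ hs.1)
  set e : ℝ → E n := fun s => (dst g c s)⁻¹ • lg g (c 0) (c s) with he
  have hcont : ContinuousOn e (Icc t 1) := by
    have hsub : Icc t 1 ⊆ Icc 0 1 := fun s hs => ⟨ht.1.trans hs.1, hs.2⟩
    refine ContinuousOn.smul (((dst_cont hg h).mono hsub).inv₀ (fun s hs => (hposs s hs).ne')) ?_
    exact fun s hs => ((lg_der hg h (hsub hs)).continuousWithinAt).mono hsub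
  have hder : ∀ s ∈ Ico t 1, HasDerivWithinAt e 0 (Ici s) s := by
    intro s hs
    have hs' : s ∈ Ioo (0 : ℝ) 1 := ⟨ht0.trans_le hs.1, hs.2⟩
    have hsi : s ∈ Icc (0 : ℝ) 1 := ⟨hs'.1.le, hs'.2.le⟩
    have hps := hposs s ⟨hs.1, hs.2.le⟩
    have h2 := (dst_der hg h hl hs').inv hps.ne'
    have h3 : HasDerivAt (fun s => lg g (c 0) (c s)) (dlg g (c 0) (c s) (d s)) s :=
      (lg_der hg h hsi).hasDerivAt (Icc_mem_nhds hs'.1 hs'.2)
    have h4 := h2.smul h3
    have h5 := vel_min hg h hl hs' hps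
    refine (HasDerivAt.congr_deriv h4 ?_).hasDerivWithinAt
    have h6 : dlg g (c 0) (c s) (d s) =
        (nm g (c s) (d s) / dst g c s) • lg g (c 0) (c s) := by
      conv_lhs => rw [h5]
      rw [map_smul]
      congr 1
      exact hg.dlg_ilg hx (h.mem s hsi) _
    rw [h6, smul_smul, ← add_smul]
    have h7 : (dst g c)⁻¹ s * (nm g (c s) (d s) / dst g c s) +
        -nm g (c s) (d s) / dst g c s ^ 2 = 0 := by
      rw [Pi.inv_apply]
      field_simp
      ring
    rw [h7, zero_smul]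
  have h2 := constant_of_has_deriv_right_zero hcont hder 1 ⟨ht.2, le_rfl⟩
  simp only [he] at h2
  have h3 : dst g c t • ((dst g c 1)⁻¹ • lg g (c 0) (c 1)) = lg g (c 0) (c t) := by
    rw [h2, smul_smul, mul_inv_cancel₀ hp'.ne', one_smul]
  rw [← h3, smul_smul]
  rfl

end Pool.Agent.V5helper78.EM
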