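import Pool.Agent.V5helper78.EM.Rig

/-!
# The map is an isometry: the end of the proof
-/

set_option autoImplicit false
set_option maxSynthPendingDepth 3

namespace Pool.Agent.V5helper78.EM

open Set Metric Filter Topology MeasureTheory
open scoped ContDiff InnerProductSpace BigOperators
open Pool.Agent.Q176.BR Pool.Agent.V5helper78.BR

variable {n : ℕ} {g g' : Fld n} {ψ : E n → E n}

theorem mem_bd_of_not_ball {z : E n} (hz : z ∈ M n) (hb : z ∉ ball (0 : E n) 1) : z ∈ bdM n := by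
  rw [mem_sphere_zero_iff_norm]
  rw [mem_ball_zero_iff, not_lt] at hb
  exact le_antisymm (mem_closedBall_zero_iff.1 hz) hb

theorem IsEq.pl_bd (hn : 2 ≤ n) (h : IsEq g g' ψ) {x : E n} (hx : x ∈ bdM n) :
    pl g' ψ x = g x := by
  obtain ⟨L, hL⟩ := h.iso hx
  ext v w
  rw [pl_apply, h.dp_eq hn hx hL, h.hψ.bd x hx, hL.form]

theorem IsEq.pl_pos (hn : 2 ≤ n) (h : IsEq g g' ψ) {z v : E n} (hz : z ∈ M n) (hv : v ≠ 0) :
    0 < pl g' ψ z v v := by
  by_cases hb : z ∈ ball (0 : E n) 1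
  · exact h.hg'.pos _ _ (fun h1 => hv (h.inj hn hb h1))
  · rw [h.pl_bd hn (mem_bd_of_not_ball hz hb)]
    exact h.hg.pos _ _ hv

theorem exists_bump {z : E n} (hz : z ∈ ball (0 : E n) 1) :
    ∃ χ : ContDiffBump (0 : E n), χ.rOut < 1 ∧ z ∈ ball (0 : E n) χ.rIn := by
  rw [mem_ball_zero_iff] at hz
  have h0 := norm_nonneg z
  refine ⟨⟨(‖z‖ + 1) / 2, ((‖z‖ + 1) / 2 + 1) / 2, by positivity, by linarith⟩, ?_, ?_⟩
  · change ((‖z‖ + 1) / 2 + 1) / 2 < 1
    linarith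
  · rw [mem_ball_zero_iff]
    change ‖z‖ < (‖z‖ + 1) / 2
    linarith

theorem IsEq.det_pos (hn : 2 ≤ n) (h : IsEq g g' ψ) {z : E n} (hz : z ∈ M n) :
    0 < (gram (pl g' ψ z)).det := by
  by_cases hb : z ∈ ball (0 : E n) 1
  · obtain ⟨χ, h1, h2⟩ := exists_bump hb
    rw [← cm_eq χ h2]
    exact (cm_metric hn h χ h1).det_pos z
  · rw [h.pl_bd hn (mem_bd_of_not_ball hz hb)]
    exact h.hg.toIsMetric.det_pos z

theorem IsEq.cq_cont (hn : 2 ≤ n) (h : IsEq g g' ψ) {γ u : ℝ → E n} (hγ : IsGeod g γ u)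
    (hne : γ 0 ≠ γ 1) : ContinuousOn (fun t => cq g g' ψ (γ t) (u t)) (Icc 0 1) := by
  have hg := h.hg
  have hu0 := u0_ne hg hγ hne
  have hM : MapsTo γ (Icc 0 1) (M n) := fun t ht => hγ.mem t ht
  have c0 : ContinuousOn (pl g' ψ) (M n) := (h.hψ.contDiffOn_pl h.hg'.toIsMetric).continuousOn
  have c1 : ContinuousOn (fun t => pl g' ψ (γ t)) (Icc 0 1) := c0.comp hγ.cont hM
  have c2 : ContinuousOn (fun t => pl g' ψ (γ t) (u t) (u t)) (Icc 0 1) :=
    (c1.clm_apply hγ.contU).clm_apply hγ.contU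
  have c3 : ContinuousOn (fun t => (gram (pl g' ψ (γ t))).det) (Icc 0 1) := by
    have e1 : Continuous (fun a : E n →L[ℝ] E n →L[ℝ] ℝ => (gram a).det) := by
      refine Continuous.matrix_det (continuous_matrix (fun i j => ?_))
      exact (continuous_id.clm_apply continuous_const).clm_apply continuous_const
    exact e1.comp_continuousOn c1
  have c4 : ContinuousOn (fun t => (gram (g (γ t))).det) (Icc 0 1) :=
    (continuous_det hg.toIsMetric).comp_continuousOn hγ.cont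
  unfold cq
  refine ContinuousOn.sub (continuousOn_const.mul (c2.log (fun t ht =>
    (h.pl_pos hn (hM ht) (hγ.ne_zero hg.toIsMetric hu0 ht)).ne'))) (continuousOn_const.mul
      (ContinuousOn.sub (c3.log (fun t ht => (h.det_pos hn (hM ht)).ne'))
        (c4.log (fun t ht => (hg.toIsMetric.det_pos _).ne'))))

theorem IsEq.cq_all (hn : 2 ≤ n) (h : IsEq g g' ψ) {γ u : ℝ → E n} (hγ : IsGeod g γ u)
    (h0 : γ 0 ∈ bdM n) (hne : γ 0 ≠ γ 1) {t : ℝ} (ht : t ∈ Ioo (0 : ℝ) 1) :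
    cq g g' ψ (γ t) (u t) = (n + 1) * Real.log (g (γ t) (u t) (u t)) := by
  have hg := h.hg
  have hti : t ∈ Icc (0 : ℝ) 1 := ⟨ht.1.le, ht.2.le⟩
  have m0 : (0 : ℝ) ∈ Icc (0 : ℝ) 1 := ⟨le_rfl, zero_le_one⟩
  have e0 : cq g g' ψ (γ 0) (u 0) = (n + 1) * Real.log (g (γ t) (u t) (u t)) := by
    unfold cq
    rw [h.pl_bd hn h0, sub_self, mul_zero, sub_zero, hγ.speed hg.toIsMetric t hti]
  rw [← e0]
  -- the limit at the end point
  have c1 := h.cq_cont hn hγ hne 0 m0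
  have hne : (𝓝[Ioo (0 : ℝ) t] 0).NeBot := by
    rw [← mem_closure_iff_nhdsWithin_neBot, closure_Ioo ht.1.ne]
    exact ⟨le_rfl, ht.1.le⟩
  have c2 : Tendsto (fun s => cq g g' ψ (γ s) (u s)) (𝓝[Ioo 0 t] 0)
      (𝓝 (cq g g' ψ (γ 0) (u 0))) :=
    c1.mono_left (nhdsWithin_mono _ (fun s hs => ⟨hs.1.le, (hs.2.trans ht.2).le⟩))
  refine tendsto_nhds_unique (tendsto_const_nhds.congr' ?_) c2
  filter_upwards [self_mem_nhdsWithin] with s hs
  exact (h.cq_inner hn hγ (by assumption) hs.1 hs.2 ht.2).symm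

/-- **The map is an isometry.** -/
theorem IsEq.isom (hn : 2 ≤ n) (h : IsEq g g' ψ) {z : E n} (hz : z ∈ M n) :
    pl g' ψ z = g z := by
  have hm := h.hg.toIsMetric
  by_cases hb : z ∈ ball (0 : E n) 1
  swap
  · exact h.pl_bd hn (mem_bd_of_not_ball hz hb)
  have := nontriv hn
  set R := Real.log (gram (pl g' ψ z)).det - Real.log (gram (g z)).det with hR
  have hn1 : (n : ℝ) + 1 ≠ 0 := by positivity
  have hdp := h.det_pos hn hz
  have hdg := hm.det_pos z
  have key : ∀ v : E n, pl g' ψ z v v = (Real.exp (2 * R / (n + 1)) • g z) v v := by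
    intro v
    rcases eq_or_ne v 0 with rfl | hv
    · simp
    obtain ⟨γ, u, hγ, h0, h1, hne, t, ht, hγt, l, hvl⟩ := through h.hg hb hv
    have hti : t ∈ Icc (0 : ℝ) 1 := ⟨ht.1.le, ht.2.le⟩
    have h2 := h.cq_all hn hγ h0 hne ht
    unfold cq at h2
    rw [hγt, ← hR] at h2
    have hut : u t ≠ 0 := hγ.ne_zero hm (u0_ne h.hg hγ hne) hti
    have p1 := h.pl_pos hn hz hut
    have p2 := hm.pos z _ hut
    have e3 : Real.log (pl g' ψ z (u t) (u t)) =
        2 * R / (n + 1) + Real.log (g z (u t) (u t)) := by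
      field_simp
      linarith
    have e4 : pl g' ψ z (u t) (u t) = Real.exp (2 * R / (n + 1)) * g z (u t) (u t) := by
      rw [← Real.exp_log p1, e3, Real.exp_add, Real.exp_log p2]
    rw [hvl]
    simp only [map_smul, smul_apply, smul_eq_mul]
    rw [e4]
  obtain ⟨q, -, hq, hqx⟩ := exists_ne_bd hn isOpen_univ
    (by rw [univ_inter]; exact NormedSpace.sphere_nonempty.2 zero_le_one) z
  have h1 := forms_eq_of_open (a := pl g' ψ z) (b := Real.exp (2 * R / (n + 1)) • g z)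
    (fun v w => h.hg'.symm _ _ _) (fun v w => by
      simp only [smul_apply]
      rw [hm.symm]) (cone_mem_nhds h.hg hz hq hqx univ_mem) (fun v _ => key v)
  set r := Real.exp (2 * R / (n + 1)) with hr
  have hrpos : 0 < r := Real.exp_pos _
  have h2 : gram (pl g' ψ z) = r • gram (g z) := by
    ext i j
    rw [gram_apply, h1]
    rfl
  have h3 : R = n * (2 * R / (n + 1)) := by
    have h4 : (gram (pl g' ψ z)).det = r ^ n * (gram (g z)).det := by
      rw [h2, Matrix.det_smul, Fintype.card_fin]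
    have h5 : R = Real.log (r ^ n) := by
      rw [hR, h4, Real.log_mul (pow_pos hrpos n).ne' hdg.ne']
      ring
    rw [Real.log_pow, hr, Real.log_exp] at h5
    exact h5
  have h4 : R = 0 := by
    have hn2 : (2 : ℝ) ≤ n := by exact_mod_cast hn
    field_simp at h3
    have h5 : R * (n - 1) = 0 := by linarith
    rcases mul_eq_zero.1 h5 with h | h
    · exact h
    · linarith
  have h5 : r = 1 := by
    rw [hr, h4, mul_zero, zero_div, Real.exp_zero]
  ext v w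
  rw [h1, h5, one_smul]

/-- In polar coordinates at a boundary point. -/
theorem IsEq.polar (hn : 2 ≤ n) (h : IsEq g g' ψ) {x z : E n} (hx : x ∈ bdM n) (hz : z ∈ M n)
    {L : E n →L[ℝ] E n} (hL : IsIso g g' x L) : lg g' x (ψ z) = L (lg g x z) := by
  have hg := h.hg
  have hg' := h.hg'
  have hxM := bd_sub hx
  rcases eq_or_ne x z with rfl | hxz
  · rw [h.hψ.bd _ hx, hg.lg_self hxM, hg'.lg_self hxM, map_zero]
  by_cases hb : z ∈ ball (0 : E n) 1
  swap
  · have hzs := mem_bd_of_not_ball hz hb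
    rw [h.hψ.bd _ hzs, hL.lg_eq z hzs]
  obtain ⟨q, hq, t, ht, h1⟩ := exists_exit hg hxM hb hxz
  have hqM := bd_sub hq
  have hne : x ≠ q := by
    rintro rfl
    rw [hg.lg_self hxM, smul_zero] at h1
    exact hg.lg_ne_zero hxM hz hxz h1
  obtain ⟨γ, u, hγ, rfl, rfl, hu0, -⟩ := hg.exists_geod hxM hqM
  have hti : t ∈ Icc (0 : ℝ) 1 := ⟨ht.1.le, ht.2.le⟩
  have hγt : γ t = z := by
    have h2 := hγ.eq_ex hg hti
    rw [hu0, ← h1, hg.ex_lg hxM hz] at h2
    exact h2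
  have h2 := h.lg_crv hγ hx hq hne hti
  -- the distance of the image
  have h3 : nm g' (γ 0) (lg g' (γ 0) (ψ (γ t))) = t * nm g' (γ 0) (lg g' (γ 0) (γ 1)) := by
    have e1 := dst_eq hg' (h.hψ.crv hγ) (h.min hγ hx hq hne) hti
    unfold dst at e1
    simp only [h.hψ.bd _ hx] at e1
    rw [e1]
    have e2 : ∀ r ∈ uIcc 0 t, spd g' (fun t => ψ (γ t)) (fun t => dp ψ (γ t) (u t)) r =
        nm g' (γ 0) (lg g' (γ 0) (γ 1)) := by
      intro r hr
      rw [uIcc_of_le ht.1.le] at hr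
      have hri : r ∈ Icc (0 : ℝ) 1 := ⟨hr.1, hr.2.trans ht.2.le⟩
      rw [spd_eq hri, ← rdist_nm hg' hxM hqM, ← h.hd _ hx _ hq, rdist_nm hg hxM hqM, ← hu0]
      unfold nm
      rw [← hγ.speed hg.toIsMetric r hri]
      congr 1
      rw [← h.isom hn (hγ.mem r hri)]
      rfl
    rw [intervalIntegral.integral_congr e2]
    simp
  have h4 : 0 < nm g' (γ 0) (lg g' (γ 0) (γ 1)) :=
    nm_pos hg'.toIsMetric (hg'.lg_ne_zero hxM hqM hne)
  rw [h3, mul_div_cancel_right₀ _ h4.ne', hγt, hL.lg_eq _ hq] at h2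
  rw [h2, h1, map_smul]

/-- The map is bijective. -/
theorem IsEq.bij (hn : 2 ≤ n) (h : IsEq g g' ψ) : BijOn ψ (M n) (M n) := by
  have hg := h.hg
  have hg' := h.hg'
  have := nontriv hn
  obtain ⟨x, hx⟩ : (bdM n).Nonempty := NormedSpace.sphere_nonempty.2 zero_le_one
  have hxM := bd_sub hx
  obtain ⟨L, hL⟩ := h.iso hx
  refine ⟨h.hψ.maps, ?_, ?_⟩
  · intro z hz y hy hzy
    have h1 := h.polar hn hx hz hL
    rw [hzy, h.polar hn hx hy hL] at h1
    have h2 : L (lg g x y - lg g x z) = 0 := by rw [map_sub, h1, sub_self]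
    have h3 := sub_eq_zero.1 (hL.inj h2)
    exact (lg_inj hg hxM hy hz h3).symm
  · intro p hp
    rcases eq_or_ne x p with rfl | hxp
    · exact ⟨x, hxM, h.hψ.bd x hx⟩
    by_cases hb : p ∈ ball (0 : E n) 1
    swap
    · have hps := mem_bd_of_not_ball hp hb
      exact ⟨p, hp, h.hψ.bd p hps⟩
    obtain ⟨q, hq, t, ht, h1⟩ := exists_exit hg' hxM hb hxp
    have hqM := bd_sub hq
    have hti : t ∈ Icc (0 : ℝ) 1 := ⟨ht.1.le, ht.2.le⟩
    obtain ⟨h2, h3⟩ := ex_smul hg hxM hqM hti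
    refine ⟨ex g x (t • lg g x q), h2, ?_⟩
    have h4 := h.polar hn hx h2 hL
    rw [h3, map_smul, ← hL.lg_eq _ hq, ← h1] at h4
    exact lg_inj hg' hxM (h.hψ.maps h2) hp h4

end Pool.Agent.V5helper78.EM
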