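import Pool.Agent.V5helper78.EM.Len

/-!
# The formula of Santaló
-/

set_option autoImplicit false
set_option maxSynthPendingDepth 3

namespace Pool.Agent.V5helper78.EM

open Set Metric Filter Topology MeasureTheory
open scoped ContDiff InnerProductSpace BigOperators ENNReal
open Pool.Agent.Q176.BR Pool.Agent.V5helper78.BR

variable {n : ℕ} {g g' : Fld n} {F : E n → E n → ℝ}

/-- The density, multiplied by the ratio of the norms. -/
noncomputable def kr (g : Fld n) (F : E n → E n → ℝ) (q z : E n) : ℝ :=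
  kz g q z * (F z (lg g z q) / nm g z (lg g z q))

theorem kz_nonneg (hg : IsMetric g) (q z : E n) : 0 ≤ kz g q z := by
  unfold kz
  have h1 := (hg.det_pos z).le
  have h2 := nm_nonneg (g := g) z (lg g z q)
  positivity

theorem kr_nonneg (hg : IsMetric g) (hF : IsLen F) (q z : E n) : 0 ≤ kr g F q z :=
  mul_nonneg (kz_nonneg hg q z) (div_nonneg (hF.nonneg _ _) (nm_nonneg _ _))

theorem continuousOn_kr_left (hg : IsSimple g) (hF : IsLen F) {z : E n} (hz : z ∈ ball (0 : E n) 1) :
    ContinuousOn (fun q => kr g F q z) (bdM n) := by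
  have hzM : z ∈ M n := ball_subset_closedBall hz
  have hs : bdM n ⊆ M n := fun _ hq => bd_sub hq
  have c1 := (continuousOn_lg hg hzM).mono hs
  have c2 := (continuousOn_tv hg hzM).mono hs
  have c3 := (hg.continuousOn_dlg hzM).mono hs
  have c4 := (continuousOn_nm_lg hg hzM).mono hs
  have c5 : ContinuousOn (fun y => (dlg g z y).det) (bdM n) :=
    ContinuousLinearMap.continuous_det.comp_continuousOn c3
  have c6 : ContinuousOn (fun y => F z (lg g z y)) (bdM n) :=
    hF.comp continuousOn_const c1 (fun _ _ => hzM)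
  have hne : ∀ q ∈ bdM n, nm g z (lg g z q) ≠ 0 := fun q hq =>
    (nm_pos hg.toIsMetric (hg.lg_ne_zero hzM (bd_sub hq) (ne_of_ball hz hq))).ne'
  unfold kr kz
  refine ContinuousOn.mul (ContinuousOn.mul (ContinuousOn.mul (ContinuousOn.div
    (continuousOn_id.inner c2).abs (c4.pow n) ?_) continuousOn_const) c5.abs) (c6.div c4 hne)
  intro q hq
  exact pow_ne_zero n (hne q hq)

theorem kr_eq (hg : IsSimple g) (hF : IsLen F) {q z : E n} (hq : q ∈ bdM n) (hz : z ∈ ball (0 : E n) 1) :
    kr g F q z = kz g q z * (F z (tv g q z) / nm g q (lg g q z)) := by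
  unfold kr
  rw [nm_lg_symm hg (bd_sub hq) (ball_subset_closedBall hz),
    hg.lg_symm (bd_sub hq) (ball_subset_closedBall hz), hF.neg (ball_subset_closedBall hz)]

theorem continuousOn_ratio (hg : IsSimple g) (hF : IsLen F) {q : E n} (hq : q ∈ bdM n) :
    ContinuousOn (fun z => F z (tv g q z) / nm g q (lg g q z)) (ball 0 1) := by
  have hqM := bd_sub hq
  have c2 := (continuousOn_tv hg hqM).mono (ball_subset_closedBall (x := (0 : E n)) (ε := 1))
  have c4 := (continuousOn_nm_lg hg hqM).mono (ball_subset_closedBall (x := (0 : E n)) (ε := 1))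
  have c6 : ContinuousOn (fun y => F y (tv g q y)) (ball (0 : E n) 1) :=
    hF.comp continuousOn_id c2 (fun _ hy => ball_subset_closedBall hy)
  refine c6.div c4 (fun z hz => ?_)
  exact (nm_pos hg.toIsMetric (hg.lg_ne_zero hqM (ball_subset_closedBall hz)
    (ne_of_ball hz hq).symm)).ne'

theorem continuousOn_kr_right (hg : IsSimple g) (hF : IsLen F) {q : E n} (hq : q ∈ bdM n) :
    ContinuousOn (fun z => kr g F q z) (ball 0 1) := by
  have hqM := bd_sub hq
  have c1 := (continuousOn_lg hg hqM).mono (ball_subset_closedBall (x := (0 : E n)) (ε := 1))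
  have c3 := (hg.continuousOn_dlg hqM).mono (ball_subset_closedBall (x := (0 : E n)) (ε := 1))
  have c4 := (continuousOn_nm_lg hg hqM).mono (ball_subset_closedBall (x := (0 : E n)) (ε := 1))
  have c5 : ContinuousOn (fun y => (dlg g q y).det) (ball (0 : E n) 1) :=
    ContinuousLinearMap.continuous_det.comp_continuousOn c3
  have c7 : ContinuousOn (fun z => |⟪q, lg g q z⟫_ℝ| / nm g q (lg g q z) ^ n *
      (gram (g q)).det * |(dlg g q z).det|) (ball (0 : E n) 1) := by
    refine ContinuousOn.mul (ContinuousOn.mul (ContinuousOn.div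
      (continuousOn_const.inner c1).abs (c4.pow n) ?_) continuousOn_const) c5.abs
    intro z hz
    exact pow_ne_zero n (nm_pos hg.toIsMetric (hg.lg_ne_zero hqM (ball_subset_closedBall hz)
      (ne_of_ball hz hq).symm)).ne'
  refine (c7.mul (continuousOn_ratio hg hF hq)).congr (fun z hz => ?_)
  rw [kr_eq hg hF hq hz, kz_eq hg hqM (ball_subset_closedBall hz) (ne_of_ball hz hq).symm]
  rfl

/-- Joint measurability. -/
theorem measurable_kr (hg : IsSimple g) (hF : IsLen F) :
    Measurable (fun p : sphere (0 : E n) 1 × ball (0 : E n) 1 =>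
      kr g F (p.1 : E n) (p.2 : E n)) := by
  refine measurable_uncurry_of_continuous_of_measurable
    (u := fun (q : sphere (0 : E n) 1) (z : ball (0 : E n) 1) => kr g F (q : E n) (z : E n))
    (fun z => ?_) (fun q => ?_)
  · have h1 := continuousOn_kr_left hg hF z.2
    rw [continuousOn_iff_continuous_domRestrict] at h1
    exact h1
  · have h1 := continuousOn_kr_right hg hF q.2
    rw [continuousOn_iff_continuous_domRestrict] at h1
    exact h1.measurable

/-- The constant `1 / (n + 1)`. -/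
noncomputable def cn (n : ℕ) : ℝ≥0∞ := ∫⁻ r in Ioo (0 : ℝ) 1, ENNReal.ofReal (r ^ n)

theorem cn_ne_zero : cn n ≠ 0 := by
  unfold cn
  have h1 : (0 : ℝ≥0∞) < ∫⁻ r in Ioo (0 : ℝ) 1, ENNReal.ofReal (r ^ n) := by
    rw [setLIntegral_pos_iff (by fun_prop)]
    have h2 : (Function.support fun r : ℝ => ENNReal.ofReal (r ^ n)) ∩ Ioo 0 1 = Ioo 0 1 := by
      refine inter_eq_right.2 (fun r hr => ?_)
      rw [Function.mem_support]
      exact (ENNReal.ofReal_pos.2 (pow_pos hr.1 n)).ne'
    rw [h2, Real.volume_Ioo]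
    simp
  exact h1.ne'

theorem cn_ne_top : cn n ≠ ⊤ := by
  unfold cn
  refine ((setLIntegral_mono measurable_const (g := fun _ => 1) (fun r hr => ?_)).trans_lt ?_).ne
  · rw [ENNReal.ofReal_le_one]
    exact pow_le_one₀ hr.1.le hr.2.le
  · rw [setLIntegral_const, Real.volume_Ioo]
    simp

theorem lintegral_pball (hn : 2 ≤ n) {h : E n → ℝ} (hh : ContinuousOn h (bdM n))
    (h0 : ∀ q ∈ bdM n, 0 ≤ h q) : ∫⁻ X in pball n, ENNReal.ofReal (‖X‖ * h (rad X)) =
      cn n * ∫⁻ θ : sphere (0 : E n) 1, ENNReal.ofReal (h θ)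
        ∂(volume : Measure (E n)).toSphere := by
  have hc : ContinuousOn (fun X : E n => ENNReal.ofReal (‖X‖ * h (rad X))) (pball n) := by
    refine ENNReal.continuous_ofReal.comp_continuousOn (continuousOn_id.norm.mul
      (hh.comp (fun X hX => ?_) (fun X hX => rad_mem hX.1)))
    exact (contDiffAt_rad hX.1).continuousAt.continuousWithinAt
  rw [lintegral_polar_on hn isOpen_pball hc, ← lintegral_const_mul' _ _ cn_ne_top]
  refine lintegral_congr (fun θ => ?_)
  have hθ : ‖(θ : E n)‖ = 1 := mem_sphere_zero_iff_norm.1 θ.2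
  have h1 : ∀ r ∈ Ioi (0 : ℝ), ENNReal.ofReal (r ^ (n - 1)) * (pball n).indicator
      (fun X => ENNReal.ofReal (‖X‖ * h (rad X))) (r • (θ : E n)) =
      (Iio (1 : ℝ)).indicator (fun r => ENNReal.ofReal (r ^ n) * ENNReal.ofReal (h θ)) r := by
    intro r hr
    rw [mem_Ioi] at hr
    by_cases h2 : r < 1
    · have h3 : r • (θ : E n) ∈ pball n := by
        refine ⟨smul_ne_zero hr.ne' (bd_ne hθ), ?_⟩
        rw [norm_smul, hθ, mul_one, Real.norm_eq_abs, abs_of_pos hr]
        exact h2
      rw [indicator_of_mem h3, indicator_of_mem (mem_Iio.2 h2),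
        rad_smul hr, rad_eq hθ, norm_smul, hθ, mul_one, Real.norm_eq_abs, abs_of_pos hr,
        ← ENNReal.ofReal_mul (by positivity), ← ENNReal.ofReal_mul (by positivity)]
      congr 1
      obtain ⟨m, rfl⟩ : ∃ m, n = m + 1 := ⟨n - 1, by omega⟩
      rw [Nat.add_sub_cancel]
      ring
    · rw [indicator_of_notMem (by
        rintro ⟨-, h3⟩
        rw [norm_smul, hθ, mul_one, Real.norm_eq_abs, abs_of_pos hr] at h3
        exact h2 h3),
        indicator_of_notMem (by simpa using h2), mul_zero]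
  rw [setLIntegral_congr_fun measurableSet_Ioi h1, lintegral_indicator measurableSet_Iio,
    Measure.restrict_restrict measurableSet_Iio, Iio_inter_Ioi,
    lintegral_mul_const' _ _ ENNReal.ofReal_ne_top]
  rfl

/-- The integral over the unit ball of the metric at an inner point. -/
theorem disc_eq (hn : 2 ≤ n) (hg : IsSimple g) (hF : IsLen F) {z : E n}
    (hz : z ∈ ball (0 : E n) 1) :
    ∫⁻ v in {v | v ≠ 0 ∧ nm g z v < 1}, ENNReal.ofReal (F z v * (gram (g z)).det) =
      cn n * ∫⁻ θ : sphere (0 : E n) 1, ENNReal.ofReal (kr g F θ z)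
        ∂(volume : Measure (E n)).toSphere := by
  have hzM : z ∈ M n := ball_subset_closedBall hz
  have hm := hg.toIsMetric
  rw [lintegral_disc hg hz, ← lintegral_pball hn (continuousOn_kr_left hg hF hz)
    (fun q _ => kr_nonneg hm hF q z)]
  refine setLIntegral_congr_fun isOpen_pball.measurableSet (fun X hX => ?_)
  rw [← ENNReal.ofReal_mul (abs_nonneg _)]
  congr 1
  have hne := lgrad_ne hg hzM hX.1 (ne_of_ball hz (rad_mem hX.1))
  have hN := nm_pos hm (x := z) hne
  unfold kr
  rw [← abs_det_wm hg hz hX.1]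
  unfold wm pol
  rw [hF.smul _ hzM, hF.smul _ hzM, abs_of_pos (inv_pos.2 hN), abs_of_nonneg (norm_nonneg X)]
  field_simp

/-- The integral of the `g'`-length over the unit disc bundle of `g`. -/
noncomputable def dl (g : Fld n) (F : E n → E n → ℝ) : ℝ≥0∞ :=
  ∫⁻ z in ball (0 : E n) 1, ∫⁻ v in {v | v ≠ 0 ∧ nm g z v < 1},
    ENNReal.ofReal (F z v * (gram (g z)).det)

/-- The integral over the geodesics from `q`. -/
noncomputable def ag (g : Fld n) (F : E n → E n → ℝ) (q : E n) : ℝ≥0∞ :=
  ∫⁻ θ : sphere (0 : E n) 1, ENNReal.ofReal (cx g q θ) *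
    ENNReal.ofReal (lf g F q θ / nm g q (lg g q θ)) ∂(volume : Measure (E n)).toSphere

theorem ag_eq (hn : 2 ≤ n) (hg : IsSimple g) (hF : IsLen F) {q : E n} (hq : q ∈ bdM n) :
    ∫⁻ z in ball (0 : E n) 1, ENNReal.ofReal (kr g F q z) = ag g F q := by
  have hqM := bd_sub hq
  have e1 : ∫⁻ z in ball (0 : E n) 1, ENNReal.ofReal (kr g F q z) =
      ∫⁻ z in ball (0 : E n) 1, ENNReal.ofReal (kz g q z) *
        ENNReal.ofReal (F z (tv g q z) / nm g q (lg g q z)) := by
    refine setLIntegral_congr_fun isOpen_ball.measurableSet (fun z hz => ?_)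
    rw [kr_eq hg hF hq hz, ENNReal.ofReal_mul (kz_nonneg hg.toIsMetric q z)]
  rw [e1, kz_polar hn hg hq (continuousOn_ratio hg hF hq)]
  unfold ag
  refine lintegral_congr (fun θ => ?_)
  rw [lintegral_ray hg hF hqM (bd_sub θ.2)]

/-- **The formula of Santaló.** -/
theorem santalo (hn : 2 ≤ n) (hg : IsSimple g) (hF : IsLen F) :
    dl g F = cn n * ∫⁻ q : sphere (0 : E n) 1, ag g F q
      ∂(volume : Measure (E n)).toSphere := by
  have hmeas := (measurable_kr hg hF).ennreal_ofReal
  unfold dl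
  have e1 : ∫⁻ z in ball (0 : E n) 1, ∫⁻ v in {v | v ≠ 0 ∧ nm g z v < 1},
      ENNReal.ofReal (F z v * (gram (g z)).det) =
      ∫⁻ z in ball (0 : E n) 1, cn n * ∫⁻ θ : sphere (0 : E n) 1, ENNReal.ofReal (kr g F θ z)
        ∂(volume : Measure (E n)).toSphere :=
    setLIntegral_congr_fun isOpen_ball.measurableSet (fun z hz => disc_eq hn hg hF hz)
  rw [e1, lintegral_const_mul' _ _ cn_ne_top]
  congr 1
  have e2 : ∀ q : sphere (0 : E n) 1, ag g F q = ∫⁻ z : ball (0 : E n) 1,
      ENNReal.ofReal (kr g F q z) ∂((volume : Measure (E n)).comap (↑)) := by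
    intro q
    rw [← ag_eq hn hg hF q.2, lintegral_subtype_comap isOpen_ball.measurableSet
      (fun z => ENNReal.ofReal (kr g F q z))]
  rw [lintegral_congr e2, ← lintegral_subtype_comap isOpen_ball.measurableSet
    (fun z => ∫⁻ θ : sphere (0 : E n) 1, ENNReal.ofReal (kr g F θ z)
        ∂(volume : Measure (E n)).toSphere)]
  have : IsFiniteMeasure ((volume : Measure (E n)).comap
      (Subtype.val : ball (0 : E n) 1 → E n)) := by
    refine ⟨?_⟩
    rw [(MeasurableEmbedding.subtype_coe isOpen_ball.measurableSet).comap_apply, image_univ,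
      Subtype.range_coe]
    exact measure_ball_lt_top
  exact (lintegral_lintegral_swap hmeas.aemeasurable).symm

end Pool.Agent.V5helper78.EM
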