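import Pool.Agent.V5helper78.EM.Crv

/-!
# Maps which fix the boundary and map geodesics to minimizing curves
-/

set_option autoImplicit false
set_option maxSynthPendingDepth 3

namespace Pool.Agent.V5helper78.EM

open Set Metric Filter Topology MeasureTheory
open scoped ContDiff InnerProductSpace BigOperators
open Pool.Agent.Q176.BR Pool.Agent.V5helper78.BR

variable {n : ℕ} {g g' : Fld n} {ψ : E n → E n}

/-- A smooth map of `M` to `M` which fixes the boundary. -/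
structure IsMp (ψ : E n → E n) : Prop where
  smooth : ContDiffOn ℝ ∞ ψ (M n)
  maps : MapsTo ψ (M n) (M n)
  bd : ∀ x ∈ bdM n, ψ x = x

/-- The derivative. -/
noncomputable def dp (ψ : E n → E n) (z : E n) : E n →L[ℝ] E n := fderivWithin ℝ ψ (M n) z

theorem IsMp.dpd (h : IsMp ψ) {z : E n} (hz : z ∈ M n) :
    HasFDerivWithinAt ψ (dp ψ z) (M n) z :=
  ((h.smooth.differentiableOn (by simp)) z hz).hasFDerivWithinAt

theorem IsMp.dps (h : IsMp ψ) : ContDiffOn ℝ ∞ (dp ψ) (M n) :=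
  h.smooth.fderivWithin uniqueDiff (by simp)

theorem IsMp.dpc (h : IsMp ψ) : ContinuousOn (dp ψ) (M n) := h.dps.continuousOn

/-- The norm of the image vector. -/
noncomputable def fp (g' : Fld n) (ψ : E n → E n) (z v : E n) : ℝ := nm g' (ψ z) (dp ψ z v)

theorem IsMp.isLen (h : IsMp ψ) (hg' : IsMetric g') : IsLen (fp g' ψ) where
  cont := by
    have c1 : ContinuousOn (fun p : E n × E n => ψ p.1) (M n ×ˢ univ) :=
      h.smooth.continuousOn.comp continuousOn_fst (fun p hp => hp.1)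
    have c2 : ContinuousOn (fun p : E n × E n => dp ψ p.1 p.2) (M n ×ˢ univ) :=
      (h.dpc.comp continuousOn_fst (fun p hp => hp.1)).clm_apply continuousOn_snd
    have c3 : ContinuousOn (fun p : E n × E n => g' (ψ p.1)) (M n ×ˢ univ) :=
      hg'.smooth.continuous.comp_continuousOn c1
    exact ((c3.clm_apply c2).clm_apply c2).sqrt
  smul z _ t v := by
    unfold fp
    rw [map_smul, nm_smul hg']
  nonneg z v := nm_nonneg _ _

/-- The image of a geodesic. -/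
theorem IsMp.crv (h : IsMp ψ) {γ u : ℝ → E n} (hγ : IsGeod g γ u) :
    IsCrv (fun t => ψ (γ t)) (fun t => dp ψ (γ t) (u t)) where
  mem t ht := h.maps (hγ.mem t ht)
  der t ht := (h.dpd (hγ.mem t ht)).comp_hasDerivWithinAt t (hγ.vel t ht)
    (fun s hs => hγ.mem s hs)
  cont := (h.dpc.comp hγ.cont (fun s hs => hγ.mem s hs)).clm_apply hγ.contU

theorem IsMp.rdist_le (h : IsMp ψ) (hg : IsSimple g) {x y : E n}
    (hx : x ∈ bdM n) (hy : y ∈ bdM n) : rdist g' x y ≤ lf g (fp g' ψ) x y := by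
  obtain ⟨γ, u, hγ, rfl, rfl, -, -⟩ := hg.exists_geod (bd_sub hx) (bd_sub hy)
  have h1 := h.crv hγ
  have h2 := rdist_le_len (g := g') h1.contDiffOn h1.mem
  rw [h.bd _ hx, h.bd _ hy, h1.len_eq] at h2
  rw [lf_geod hg hγ]
  exact h2

/-- The situation of the case of equality. -/
structure IsEq (g g' : Fld n) (ψ : E n → E n) : Prop where
  hg : IsSimple g
  hg' : IsSimple g'
  hψ : IsMp ψ
  hd : ∀ x ∈ bdM n, ∀ y ∈ bdM n, rdist g x y = rdist g' x y
  hl : ∀ x ∈ bdM n, ∀ y ∈ bdM n, x ≠ y → lf g (fp g' ψ) x y = nm g' x (lg g' x y)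

theorem isEq_of (hg : IsSimple g) (hg' : IsSimple g') (hψ : IsMp ψ)
    (hd : ∀ x ∈ bdM n, ∀ y ∈ bdM n, rdist g x y ≤ rdist g' x y)
    (h : ∀ x ∈ bdM n, ∀ y ∈ bdM n, x ≠ y → lf g (fp g' ψ) x y = nm g x (lg g x y)) :
    IsEq g g' ψ := by
  have key : ∀ x ∈ bdM n, ∀ y ∈ bdM n, rdist g x y = rdist g' x y := by
    intro x hx y hy
    rcases eq_or_ne x y with rfl | hxy
    · rw [rdist_nm hg (bd_sub hx) (bd_sub hy), rdist_nm hg' (bd_sub hx) (bd_sub hy),
        hg.lg_self (bd_sub hx), hg'.lg_self (bd_sub hx)]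
      simp [nm]
    · refine le_antisymm (hd x hx y hy) ?_
      rw [rdist_nm hg (bd_sub hx) (bd_sub hy), ← h x hx y hy hxy]
      exact hψ.rdist_le hg hx hy
  refine ⟨hg, hg', hψ, key, fun x hx y hy hxy => ?_⟩
  rw [h x hx y hy hxy, ← rdist_nm hg (bd_sub hx) (bd_sub hy),
    ← rdist_nm hg' (bd_sub hx) (bd_sub hy), key x hx y hy]

/-- The length of the image of a geodesic between boundary points. -/
theorem IsEq.min (h : IsEq g g' ψ) {γ u : ℝ → E n} (hγ : IsGeod g γ u) (h0 : γ 0 ∈ bdM n)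
    (h1 : γ 1 ∈ bdM n) (hne : γ 0 ≠ γ 1) :
    ∫ t in (0 : ℝ)..1, nm g' (ψ (γ t)) (dp ψ (γ t) (u t)) = dst g' (fun t => ψ (γ t)) 1 := by
  have h2 := h.hl _ h0 _ h1 hne
  rw [lf_geod h.hg hγ] at h2
  unfold dst
  dsimp only
  rw [h.hψ.bd _ h0, h.hψ.bd _ h1]
  exact h2

/-- A linear map which is proportional to `L` on an open set is a multiple of `L`. -/
theorem eig {A L : E n →L[ℝ] E n} (hL : ∀ v, L v = 0 → v = 0) {S : Set (E n)} {v0 : E n}
    (hv0 : v0 ≠ 0) (hS : S ∈ 𝓝 v0) (h : ∀ v ∈ S, ∃ k : ℝ, A v = k • L v) :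
    ∃ k : ℝ, ∀ v, A v = k • L v := by
  obtain ⟨k0, hk0⟩ := h v0 (mem_of_mem_nhds hS)
  refine ⟨k0, fun z => ?_⟩
  by_cases hz : ∃ a : ℝ, z = a • v0
  · obtain ⟨a, rfl⟩ := hz
    rw [map_smul, hk0, map_smul, smul_comm]
  obtain ⟨δ, hδ, h2⟩ := exists_seg hS z
  -- linear independence
  have hind : ∀ a b : ℝ, a • L v0 + b • L z = 0 → a = 0 ∧ b = 0 := by
    intro a b hab
    rw [← map_smul, ← map_smul, ← map_add] at hab
    have h3 := hL _ hab
    have hb : b = 0 := by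
      by_contra hb
      apply hz
      refine ⟨-(b⁻¹ * a), ?_⟩
      have h4 : b • z = -(a • v0) := eq_neg_of_add_eq_zero_right h3
      have h5 : z = b⁻¹ • (b • z) := by rw [smul_smul, inv_mul_cancel₀ hb, one_smul]
      rw [h5, h4, smul_neg, smul_smul, neg_smul]
    rw [hb, zero_smul, add_zero] at h3
    exact ⟨(smul_eq_zero.1 h3).resolve_right hv0, hb⟩
  have key : ∀ s : ℝ, |s| ≤ δ → ∃ k : ℝ, s • A z = (k - k0) • L v0 + (s * k) • L z := by
    intro s hs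
    obtain ⟨k, hk⟩ := h _ (h2 s hs)
    refine ⟨k, ?_⟩
    rw [map_add, map_smul, map_add, map_smul, hk0, smul_add, smul_smul, mul_comm k s] at hk
    rw [sub_smul]
    have : s • A z = (k0 • L v0 + s • A z) - k0 • L v0 := by abel
    rw [this, hk]
    abel
  obtain ⟨k1, hk1⟩ := key δ (by rw [abs_of_pos hδ])
  obtain ⟨k2, hk2⟩ := key (δ / 2) (by rw [abs_of_pos (by positivity)]; linarith)
  have h3 : ((k1 - k0) - 2 * (k2 - k0)) • L v0 + (δ * k1 - δ * k2) • L z = 0 := by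
    have h4 : δ • A z = (2 : ℝ) • ((δ / 2) • A z) := by
      rw [smul_smul]
      congr 1
      ring
    rw [hk1, hk2, smul_add, smul_smul, smul_smul] at h4
    have h5 : (2 : ℝ) * (δ / 2 * k2) = δ * k2 := by ring
    rw [h5] at h4
    rw [sub_smul, sub_smul (δ * k1)]
    have h6 : (k1 - k0) • L v0 - (2 * (k2 - k0)) • L v0 + ((δ * k1) • L z - (δ * k2) • L z) =
        ((k1 - k0) • L v0 + (δ * k1) • L z) - ((2 * (k2 - k0)) • L v0 + (δ * k2) • L z) := by
      abel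
    rw [h6, h4, sub_self]
  obtain ⟨h4, h5⟩ := hind _ _ h3
  have h6 : k1 = k2 := by
    have : δ * (k1 - k2) = 0 := by linarith
    rcases mul_eq_zero.1 this with h7 | h7
    · exact absurd h7 hδ.ne'
    · linarith
  have h7 : k1 = k0 := by
    rw [← h6] at h4
    linarith
  rw [h7, sub_self, zero_smul, zero_add, ← smul_smul] at hk1
  exact smul_right_injective _ hδ.ne' hk1

/-- The derivative at a boundary point, along the boundary. -/
theorem IsMp.tan (h : IsMp ψ) {x w : E n} (hx : x ∈ bdM n) (hw : ⟪x, w⟫_ℝ = 0) :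
    dp ψ x w = w := by
  have hx1 : ‖x‖ = 1 := mem_sphere_zero_iff_norm.1 hx
  have hne : ∀ s : ℝ, x + s • w ≠ 0 := by
    intro s h
    have h1 := congrArg (fun z => ⟪x, z⟫_ℝ) h
    simp only [inner_add_right, inner_smul_right, hw, real_inner_self_eq_norm_sq, hx1,
      inner_zero_right] at h1
    norm_num at h1
  have h1 := rad_curve hx1 w
  rw [hw, zero_smul, sub_zero] at h1
  have h2 : HasFDerivWithinAt ψ (dp ψ x) (M n) ((fun s : ℝ => rad (x + s • w)) 0) := by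
    simp only [zero_smul, add_zero, rad_eq hx1]
    exact h.dpd (bd_sub hx)
  have h3 := h2.comp_hasDerivWithinAt (0 : ℝ) (h1.hasDerivWithinAt (s := univ))
    (fun s _ => bd_sub (rad_mem (hne s)))
  rw [hasDerivWithinAt_univ] at h3
  have h4 : (ψ ∘ fun s : ℝ => rad (x + s • w)) = fun s : ℝ => rad (x + s • w) := by
    funext s
    exact h.bd _ (rad_mem (hne s))
  rw [h4] at h3
  exact h3.unique h1

theorem IsEq.lg_crv (h : IsEq g g' ψ) {γ u : ℝ → E n} (hγ : IsGeod g γ u) (h0 : γ 0 ∈ bdM n)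
    (h1 : γ 1 ∈ bdM n) (hne : γ 0 ≠ γ 1) {t : ℝ} (ht : t ∈ Icc (0 : ℝ) 1) :
    lg g' (γ 0) (ψ (γ t)) = (nm g' (γ 0) (lg g' (γ 0) (ψ (γ t))) /
      nm g' (γ 0) (lg g' (γ 0) (γ 1))) • lg g' (γ 0) (γ 1) := by
  have h2 := lg_min h.hg' (h.hψ.crv hγ) (h.min hγ h0 h1 hne)
    (by rwa [h.hψ.bd _ h0, h.hψ.bd _ h1]) ht
  unfold dst at h2
  simp only [h.hψ.bd _ h0, h.hψ.bd _ h1] at h2
  exact h2

/-- The derivative at a boundary point. -/
theorem IsEq.dp_bd (hn : 2 ≤ n) (h : IsEq g g' ψ) {x : E n} (hx : x ∈ bdM n) {L : E n →L[ℝ] E n}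
    (hL0 : L.det ≠ 0) (hL1 : ∀ q ∈ bdM n, lg g' x q = L (lg g x q))
    (hL2 : ∀ v, ⟪x, v⟫_ℝ = 0 → L v = v) : dp ψ x = L := by
  have hg := h.hg
  have hg' := h.hg'
  have hxM := bd_sub hx
  have := nontriv hn
  have hLinj : ∀ v, L v = 0 → v = 0 := by
    intro v hv
    have h1 : Function.Injective (L : E n →ₗ[ℝ] E n) :=
      (LinearMap.equivOfDetNeZero (L : E n →ₗ[ℝ] E n) hL0).injective
    exact h1 (by rw [map_zero]; exact hv)
  -- proportionality for the directions of the geodesics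
  have h1 : ∀ q ∈ bdM n, q ≠ x → ∃ k : ℝ, dp ψ x (lg g x q) = k • L (lg g x q) := by
    intro q hq hqx
    obtain ⟨γ, u, hγ, rfl, rfl, hu0, -⟩ := hg.exists_geod hxM (bd_sub hq)
    have m0 : (0 : ℝ) ∈ Icc (0 : ℝ) 1 := ⟨le_rfl, zero_le_one⟩
    have hcrv := h.hψ.crv hγ
    have hd := lg_der hg' hcrv m0
    rw [h.hψ.bd _ hx, dlg_self hg' hxM, ContinuousLinearMap.id_apply, hu0] at hd
    set W := lg g' (γ 0) (γ 1) with hW
    have hW0 : W ≠ 0 := hg'.lg_ne_zero hxM (bd_sub hq) hqx.symm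
    have hWW := hg'.pos (γ 0) W hW0
    have e1 : ∀ t ∈ Icc (0 : ℝ) 1, lg g' (γ 0) (ψ (γ t)) =
        (g' (γ 0) (lg g' (γ 0) (ψ (γ t))) W / g' (γ 0) W W) • W := by
      intro t ht
      have h2 := h.lg_crv hγ hx hq hqx.symm ht
      conv_rhs => rw [h2]
      conv_lhs => rw [h2]
      simp only [map_smul, smul_apply, smul_eq_mul]
      rw [mul_div_cancel_right₀ _ hWW.ne']
    have h3 : HasDerivWithinAt (fun t => g' (γ 0) (lg g' (γ 0) (ψ (γ t))) W / g' (γ 0) W W)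
        (g' (γ 0) (dp ψ (γ 0) (lg g (γ 0) (γ 1))) W / g' (γ 0) W W) (Icc 0 1) 0 := by
      have h4 := ((g' (γ 0)).hasFDerivAt.comp_hasDerivWithinAt (0 : ℝ) hd).clm_apply
        (hasDerivWithinAt_const (0 : ℝ) (Icc (0 : ℝ) 1) W)
      have h5 := h4.div_const (g' (γ 0) W W)
      refine h5.congr_deriv ?_
      simp
    have h4 := h3.smul_const W
    have h5 := (hd.congr (fun t ht => (e1 t ht).symm) (e1 0 m0).symm)
    have h6 := (uniqueDiffOn_Icc (zero_lt_one (α := ℝ)) 0 m0).eq_deriv _ h5 h4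
    exact ⟨_, h6.trans (by rw [hW, hL1 _ hq])⟩
  obtain ⟨q, -, hq, hqx⟩ := exists_ne_bd hn isOpen_univ
    (by rw [univ_inter]; exact NormedSpace.sphere_nonempty.2 zero_le_one) x
  obtain ⟨k, hk⟩ := eig hLinj (hg.lg_ne_zero hxM (bd_sub hq) hqx.symm)
    (cone_mem_nhds hg hxM hq hqx univ_mem) (A := dp ψ x) (fun v hv => by
      obtain ⟨l, hl, r, -, hr, hrx, rfl⟩ := hv
      obtain ⟨k, hk⟩ := h1 r hr hrx
      refine ⟨k, ?_⟩
      rw [map_smul, hk, map_smul, smul_comm])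
  -- a tangential vector
  obtain ⟨w, hw0, hw⟩ : ∃ w : E n, w ≠ 0 ∧ ⟪x, w⟫_ℝ = 0 := by
    have h1 : (ℝ ∙ x)ᗮ ≠ ⊥ := by
      intro h2
      have h3 := Submodule.finrank_add_finrank_orthogonal (ℝ ∙ x)
      rw [h2, finrank_bot, add_zero, finrank_span_singleton
        (bd_ne (mem_sphere_zero_iff_norm.1 hx)), finrank_euclideanSpace, Fintype.card_fin] at h3
      omega
    obtain ⟨w, hw, hw'⟩ := Submodule.exists_mem_ne_zero_of_ne_bot h1
    exact ⟨w, hw', Submodule.mem_orthogonal_singleton_iff_inner_right.1 hw⟩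
  have h2 := hk w
  rw [h.hψ.tan hx hw, hL2 w hw] at h2
  have h3 : k = 1 := by
    have h4 : (1 - k) • w = 0 := by
      rw [sub_smul, one_smul, ← h2, sub_self]
    rcases smul_eq_zero.1 h4 with h5 | h5
    · linarith
    · exact absurd h5 hw0
  ext1 v
  rw [hk, h3, one_smul]

end Pool.Agent.V5helper78.EM
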