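import Pool.Agent.V5helper78.EM.Map

/-!
# The derivative of the map is injective
-/

set_option autoImplicit false
set_option maxSynthPendingDepth 3

namespace Pool.Agent.V5helper78.EM

open Set Metric Filter Topology MeasureTheory
open scoped ContDiff InnerProductSpace BigOperators
open Pool.Agent.Q176.BR Pool.Agent.V5helper78.BR

variable {n : ℕ} {g g' : Fld n} {ψ : E n → E n}

/-- The properties of the comparison isometry at `x`. -/
structure IsIso (g g' : Fld n) (x : E n) (L : E n →L[ℝ] E n) : Prop where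
  det : L.det ≠ 0
  lg_eq : ∀ q ∈ bdM n, lg g' x q = L (lg g x q)
  tan : ∀ v, ⟪x, v⟫_ℝ = 0 → L v = v
  form : ∀ v w, g' x (L v) (L w) = g x v w

theorem IsEq.iso (h : IsEq g g' ψ) {x : E n} (hx : x ∈ bdM n) : ∃ L, IsIso g g' x L := by
  obtain ⟨L, h1, -, h3, h4, h5⟩ := exists_iso h.hg h.hg' h.hd hx
  exact ⟨L, h1.ne', h4, h5, h3⟩

theorem IsIso.inj {x : E n} {L : E n →L[ℝ] E n} (h : IsIso g g' x L) {v : E n} (hv : L v = 0) :
    v = 0 := by
  have h1 : Function.Injective (L : E n →ₗ[ℝ] E n) :=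
    (LinearMap.equivOfDetNeZero (L : E n →ₗ[ℝ] E n) h.det).injective
  exact h1 (by rw [map_zero]; exact hv)

theorem IsEq.dp_eq (hn : 2 ≤ n) (h : IsEq g g' ψ) {x : E n} (hx : x ∈ bdM n)
    {L : E n →L[ℝ] E n} (hL : IsIso g g' x L) : dp ψ x = L :=
  h.dp_bd hn hx hL.det hL.lg_eq hL.tan

theorem u0_ne (hg : IsSimple g) {γ u : ℝ → E n} (hγ : IsGeod g γ u) (hne : γ 0 ≠ γ 1) :
    u 0 ≠ 0 := by
  have h1 := hγ.lg_eq hg (t := 1) ⟨zero_le_one, le_rfl⟩
  rw [one_smul] at h1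
  rw [← h1]
  exact hg.lg_ne_zero (hγ.mem 0 ⟨le_rfl, zero_le_one⟩) (hγ.mem 1 ⟨zero_le_one, le_rfl⟩) hne

/-- The image of an inner point of the geodesic is not the starting point. -/
theorem IsEq.dst_pos (hn : 2 ≤ n) (h : IsEq g g' ψ) {γ u : ℝ → E n} (hγ : IsGeod g γ u)
    (h0 : γ 0 ∈ bdM n) (h1 : γ 1 ∈ bdM n) (hne : γ 0 ≠ γ 1) {t : ℝ} (ht : t ∈ Ioc (0 : ℝ) 1) :
    0 < nm g' (γ 0) (lg g' (γ 0) (ψ (γ t))) := by
  have hg' := h.hg'
  have hcrv := h.hψ.crv hγ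
  have hti : t ∈ Icc (0 : ℝ) 1 := ⟨ht.1.le, ht.2⟩
  rcases (nm_nonneg (g := g') (γ 0) (lg g' (γ 0) (ψ (γ t)))).lt_or_eq with h2 | h2
  · exact h2
  exfalso
  have hz : ∀ s ∈ Icc (0 : ℝ) t, lg g' (γ 0) (ψ (γ s)) = 0 := by
    intro s hs
    have hsi : s ∈ Icc (0 : ℝ) 1 := ⟨hs.1, hs.2.trans ht.2⟩
    have h3 := dst_le hg' hcrv (h.min hγ h0 h1 hne) hsi hti hs.2
    unfold dst at h3
    simp only [h.hψ.bd _ h0] at h3
    rw [← h2] at h3
    by_contra h4
    exact absurd (nm_pos hg'.toIsMetric (x := γ 0) h4) (not_lt.2 h3)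
  have hd := lg_der hg' hcrv (t := 0) ⟨le_rfl, zero_le_one⟩
  obtain ⟨L, hL⟩ := h.iso h0
  simp only [h.hψ.bd _ h0] at hd
  rw [dlg_self hg' (bd_sub h0), ContinuousLinearMap.id_apply, h.dp_eq hn h0 hL] at hd
  have h5 : Icc (0 : ℝ) t ⊆ Icc 0 1 := fun s hs => ⟨hs.1, hs.2.trans ht.2⟩
  have h6 := (hasDerivWithinAt_const (0 : ℝ) (Icc (0 : ℝ) t) (0 : E n)).congr
    (f₁ := fun s => lg g' (γ 0) (ψ (γ s))) (fun s hs => hz s hs) (hz 0 ⟨le_rfl, ht.1.le⟩)
  have h7 := (uniqueDiffOn_Icc ht.1 0 ⟨le_rfl, ht.1.le⟩).eq_deriv _ (hd.mono h5) h6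
  exact u0_ne h.hg hγ hne (hL.inj h7)

/-- The map in polar coordinates. -/
theorem IsEq.ray (hn : 2 ≤ n) (h : IsEq g g' ψ) {x z : E n} (hx : x ∈ bdM n) (hz : z ∈ M n)
    (hxz : x ≠ z) {L : E n →L[ℝ] E n} (hL : IsIso g g' x L) :
    ∃ σ : ℝ, 0 < σ ∧ lg g' x (ψ z) = σ • L (lg g x z) := by
  have hg := h.hg
  have hg' := h.hg'
  have hxM := bd_sub hx
  by_cases hzb : z ∈ ball (0 : E n) 1
  swap
  · have hzs : z ∈ bdM n := by
      rw [mem_sphere_zero_iff_norm]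
      rw [mem_ball_zero_iff, not_lt] at hzb
      exact le_antisymm (mem_closedBall_zero_iff.1 hz) hzb
    exact ⟨1, one_pos, by rw [h.hψ.bd _ hzs, hL.lg_eq z hzs, one_smul]⟩
  obtain ⟨q, hq, t, ht, h1⟩ := exists_exit hg hxM hzb hxz
  have hqM := bd_sub hq
  have hne : x ≠ q := by
    rintro rfl
    rw [hg.lg_self hxM, smul_zero] at h1
    exact hg.lg_ne_zero hxM hz hxz h1
  obtain ⟨γ, u, hγ, rfl, rfl, hu0, -⟩ := hg.exists_geod hxM hqM
  have hti : t ∈ Icc (0 : ℝ) 1 := ⟨ht.1.le, ht.2.le⟩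
  have hγt : γ t = z := by
    have h2 := hγ.eq_ex hg hti
    rw [hu0, ← h1, hg.ex_lg hxM hz] at h2
    exact h2
  have h2 := h.lg_crv hγ hx hq hne hti
  have h3 := h.dst_pos hn hγ hx hq hne (t := t) ⟨ht.1, ht.2.le⟩
  have h4 : 0 < nm g' (γ 0) (lg g' (γ 0) (γ 1)) :=
    nm_pos hg'.toIsMetric (hg'.lg_ne_zero hxM hqM hne)
  rw [hγt] at h2 h3
  refine ⟨nm g' (γ 0) (lg g' (γ 0) (ψ z)) / nm g' (γ 0) (lg g' (γ 0) (γ 1)) / t,
    div_pos (div_pos h3 h4) ht.1, ?_⟩
  rw [h1, map_smul, smul_smul, div_mul_cancel₀ _ ht.1.ne', ← hL.lg_eq _ hq]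
  exact h2

/-- The derivative at an inner point is injective. -/
theorem IsEq.inj (hn : 2 ≤ n) (h : IsEq g g' ψ) {z v : E n} (hz : z ∈ ball (0 : E n) 1)
    (hv : dp ψ z v = 0) : v = 0 := by
  have hg := h.hg
  have hg' := h.hg'
  have hzM : z ∈ M n := ball_subset_closedBall hz
  -- `v` is tangent to the geodesics from all boundary points
  have key : ∀ x ∈ bdM n, ∃ m : ℝ, v = m • tv g x z := by
    intro x hx
    have hxM := bd_sub hx
    have hxz : x ≠ z := (ne_of_ball hz hx).symm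
    obtain ⟨L, hL⟩ := h.iso hx
    set σ : E n → ℝ := fun y => g' x (lg g' x (ψ y)) (L (lg g x y)) / g x (lg g x y) (lg g x y)
      with hσ
    have hag := hg.toIsMetric.pos x _ (hg.lg_ne_zero hxM hzM hxz)
    have e1 : ∀ y ∈ ball (0 : E n) 1, 0 < σ y ∧ lg g' x (ψ y) = σ y • L (lg g x y) := by
      intro y hy
      have hyM : y ∈ M n := ball_subset_closedBall hy
      have hxy : x ≠ y := (ne_of_ball hy hx).symm
      obtain ⟨s, hs, h1⟩ := h.ray hn hx hyM hxy hL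
      have h2 := hg.toIsMetric.pos x _ (hg.lg_ne_zero hxM hyM hxy)
      have h3 : σ y = s := by
        simp only [hσ]
        rw [h1, map_smul, smul_apply, smul_eq_mul, hL.form, mul_div_cancel_right₀ _ h2.ne']
      rw [h3]
      exact ⟨hs, h1⟩
    have d1 : HasFDerivAt ψ (dp ψ z) z := (h.hψ.dpd hzM).hasFDerivAt (M_nhds hz)
    have d2 : HasFDerivAt (fun y => lg g' x (ψ y)) ((dlg g' x (ψ z)).comp (dp ψ z)) z := by
      have h1 := (hg'.hasFDeriv hxM (h.hψ.maps hzM)).comp z (h.hψ.dpd hzM) h.hψ.maps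
      exact h1.hasFDerivAt (M_nhds hz)
    have d3 : HasFDerivAt (lg g x) (dlg g x z) z :=
      (hg.hasFDeriv hxM hzM).hasFDerivAt (M_nhds hz)
    have d4 : HasFDerivAt (fun y => L (lg g x y)) (L.comp (dlg g x z)) z :=
      L.hasFDerivAt.comp z d3
    have d5 : DifferentiableAt ℝ σ z := by
      have h1 : DifferentiableAt ℝ (fun y => g' x (lg g' x (ψ y)) (L (lg g x y))) z :=
        (((g' x).hasFDerivAt.comp z d2).clm_apply d4).differentiableAt
      have h2 : DifferentiableAt ℝ (fun y => g x (lg g x y) (lg g x y)) z :=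
        (((g x).hasFDerivAt.comp z d3).clm_apply d3).differentiableAt
      simp only [hσ, div_eq_mul_inv]
      exact h1.mul (h2.inv hag.ne')
    have d6 := d5.hasFDerivAt.smul d4
    have e2 : (fun y => lg g' x (ψ y)) =ᶠ[𝓝 z] fun y => σ y • L (lg g x y) := by
      filter_upwards [isOpen_ball.mem_nhds hz] with y hy
      exact (e1 y hy).2
    have d7 := d2.unique (d6.congr_of_eventuallyEq e2)
    have d8 := congrArg (fun T : E n →L[ℝ] E n => T v) d7
    simp only [ContinuousLinearMap.comp_apply, hv, map_zero, add_apply, smul_apply,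
      ContinuousLinearMap.smulRight_apply] at d8
    have hσ0 := (e1 z hz).1
    have d9 : L (σ z • dlg g x z v + (fderiv ℝ σ z v) • lg g x z) = 0 := by
      rw [map_add, map_smul, map_smul]
      exact d8.symm
    have d10 := hL.inj d9
    have d11 : dlg g x z v = (-(fderiv ℝ σ z v) / σ z) • lg g x z := by
      have h1 : σ z • dlg g x z v = -(fderiv ℝ σ z v • lg g x z) :=
        eq_neg_of_add_eq_zero_left d10
      have h2 : dlg g x z v = (σ z)⁻¹ • (σ z • dlg g x z v) := by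
        rw [smul_smul, inv_mul_cancel₀ hσ0.ne', one_smul]
      rw [h2, h1, smul_neg, smul_smul, ← neg_smul]
      congr 1
      ring
    refine ⟨-(fderiv ℝ σ z v) / σ z, ?_⟩
    have d12 := hg.ilg_dlg hxM hzM v
    rw [d11, map_smul] at d12
    exact d12.symm
  by_contra hv0
  -- a vector which is not proportional to `v`
  obtain ⟨w, hw⟩ : ∃ w : E n, ¬ ∃ m : ℝ, w = m • v := by
    by_contra hall
    push Not at hall
    have h1 : Module.finrank ℝ (E n) ≤ 1 := by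
      rw [finrank_le_one_iff]
      exact ⟨v, fun w => by
        obtain ⟨m, hm⟩ := hall w
        exact ⟨m, hm.symm⟩⟩
    rw [finrank_euclideanSpace, Fintype.card_fin] at h1
    omega
  have hw0 : w ≠ 0 := by
    rintro rfl
    exact hw ⟨0, by rw [zero_smul]⟩
  obtain ⟨x, hx, t, ht, h1⟩ := exists_dir hg hz hw0
  obtain ⟨m, hm⟩ := key x hx
  have h2 := hg.lg_symm (bd_sub hx) hzM
  have hm0 : m ≠ 0 := by
    rintro rfl
    rw [zero_smul] at hm
    exact hv0 hm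
  apply hw
  refine ⟨-(t / m), ?_⟩
  rw [h1, h2, hm, smul_smul]
  have : -(t / m) * m = -t := by field_simp
  rw [this, smul_neg, neg_smul]

end Pool.Agent.V5helper78.EM
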