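import Pool.Agent.V5helper78.EM.Eqc
import Pool.Agent.V5helper78.BR.Pc

/-!
# The mean of a homogeneous function over the unit vectors
-/

set_option autoImplicit false
set_option maxSynthPendingDepth 3

namespace Pool.Agent.V5helper78.EM

open Set Metric Filter Topology MeasureTheory
open scoped ContDiff InnerProductSpace BigOperators ENNReal
open Pool.Agent.Q176.BR Pool.Agent.V5helper78.BR

variable {n : ℕ} {g g' : Fld n} {F : E n → E n → ℝ}

theorem integrableOn_disc (hn : 2 ≤ n) (hg : IsMetric g) (hF : IsLen F) {z : E n}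
    (hz : z ∈ M n) : IntegrableOn (fun v => F z v) {v | g z v v < 1} := by
  obtain ⟨c, hc, h1⟩ := exists_lower hn hg
  have hcont : Continuous (fun v => F z v) := by
    rw [← continuousOn_univ]
    exact hF.comp continuousOn_const continuousOn_id (fun _ _ => hz)
  exact (hcont.continuousOn.integrableOn_compact (isCompact_closedBall 0 c⁻¹)).mono_set
    (disc_subset hg hc (h1 z hz))

/-- The integral over the unit disc. -/
noncomputable def di (g : Fld n) (F : E n → E n → ℝ) (z : E n) : ℝ :=
  ∫ v in {v | g z v v < 1}, F z v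

theorem di_nonneg (hF : IsLen F) (z : E n) : 0 ≤ di g F z := by
  unfold di
  exact integral_nonneg (fun v => hF.nonneg z v)

theorem lintegral_di (hn : 2 ≤ n) (hg : IsMetric g) (hF : IsLen F) {z : E n} (hz : z ∈ M n) :
    ∫⁻ v in {v | v ≠ 0 ∧ nm g z v < 1}, ENNReal.ofReal (F z v * (gram (g z)).det) =
      ENNReal.ofReal (di g F z * (gram (g z)).det) := by
  have hpos := (hg.det_pos z).le
  have := nontriv hn
  simp only [ENNReal.ofReal_mul' hpos]
  rw [lintegral_mul_const' _ _ ENNReal.ofReal_ne_top]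
  congr 1
  unfold di
  rw [ofReal_integral_eq_lintegral_ofReal (integrableOn_disc hn hg hF hz)
    (Eventually.of_forall fun v => hF.nonneg z v)]
  have hset : {v | v ≠ 0 ∧ nm g z v < 1} = {v | g z v v < 1} \ {0} := by
    ext v
    simp only [mem_ofPred_eq, Set.mem_sdiff, mem_singleton_iff, nm_lt_one hg]
    exact and_comm
  rw [hset]
  refine setLIntegral_congr ?_
  exact sdiff_null_ae_eq_self (measure_singleton 0)

/-- The mean over the unit vectors. -/
noncomputable def mn (g : Fld n) (F : E n → E n → ℝ) (z : E n) : ℝ :=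
  di g F z / di g (nm g) z

theorem mn_nonneg (hF : IsLen F) (z : E n) : 0 ≤ mn g F z :=
  div_nonneg (di_nonneg hF z) (BR.di_nonneg (g := g) (g' := g) z)

theorem disc_mn (hn : 2 ≤ n) (hg : IsMetric g) (hF : IsLen F) {z : E n} (hz : z ∈ M n) :
    ∫⁻ v in {v | v ≠ 0 ∧ nm g z v < 1}, ENNReal.ofReal (F z v * (gram (g z)).det) =
      ENNReal.ofReal (mn g F z * √(gram (g z)).det) * cc n := by
  rw [lintegral_di hn hg hF hz]
  have h1 : di g F z * (gram (g z)).det = mn g F z * (BR.di g g z * (gram (g z)).det) := by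
    unfold mn
    have h2 := (di_self_pos hn hg hz).ne'
    have h3 : di g (nm g) z = BR.di g g z := rfl
    rw [h3]
    field_simp
  rw [h1, ENNReal.ofReal_mul (mn_nonneg hF z), di_self hn hg hz, ← mul_assoc,
    ← ENNReal.ofReal_mul (mn_nonneg hF z)]

theorem dl_mn (hn : 2 ≤ n) (hg : IsMetric g) (hF : IsLen F) :
    dl g F = (∫⁻ z in ball (0 : E n) 1, ENNReal.ofReal (mn g F z * √(gram (g z)).det)) *
      cc n := by
  unfold dl
  rw [setLIntegral_congr_fun isOpen_ball.measurableSet
    (fun z hz => disc_mn hn hg hF (ball_subset_closedBall hz)),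
    lintegral_mul_const' _ _ cc_ne_top]

theorem dl_self (hg : IsMetric g) : dl g (nm g) = vl g * cc n := BR.dl_self hg

theorem exists_upper (hF : IsLen F) : ∃ C, 0 < C ∧ ∀ z ∈ M n, ∀ v, F z v ≤ C * ‖v‖ := by
  have hK : IsCompact (M n ×ˢ closedBall (0 : E n) 1) := isCompact_M.prod (isCompact_closedBall 0 1)
  obtain ⟨C, hC⟩ := hK.exists_bound_of_continuousOn
    (hF.cont.mono (prod_mono Subset.rfl (subset_univ _)))
  have hC0 : 0 ≤ |C| := abs_nonneg C
  refine ⟨|C| + 1, by positivity, fun z hz v => ?_⟩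
  rcases eq_or_ne v 0 with rfl | hv
  · have := hF.smul z hz 0 0
    simp only [zero_smul, abs_zero, zero_mul] at this
    rw [this]
    simp
  have hv0 : 0 < ‖v‖ := norm_pos_iff.2 hv
  have h1 := hC (z, rad v) ⟨hz, by rw [mem_closedBall_zero_iff, norm_rad hv]⟩
  have h2 : F z v = ‖v‖ * F z (rad v) := by
    conv_lhs => rw [← norm_smul_rad v, hF.smul z hz, abs_of_pos hv0]
  rw [h2, mul_comm]
  refine mul_le_mul_of_nonneg_right ?_ hv0.le
  have h3 : F z (rad v) ≤ |C| := (le_abs_self _).trans (h1.trans (le_abs_self C))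
  linarith

theorem exists_mn_le (hn : 2 ≤ n) (hg : IsMetric g) (hF : IsLen F) :
    ∃ C, 0 ≤ C ∧ ∀ z ∈ M n, mn g F z ≤ C := by
  obtain ⟨c, hc, h1⟩ := exists_lower hn hg
  obtain ⟨C, hC, h2⟩ := exists_upper hF
  refine ⟨C / c, by positivity, fun z hz => ?_⟩
  unfold mn
  have h5 : 0 < di g (nm g) z := di_self_pos hn hg hz
  rw [div_le_iff₀ h5]
  unfold di
  rw [← integral_const_mul]
  refine integral_mono (integrableOn_disc hn hg hF hz)
    ((integrableOn_disc hn hg (isLen_nm hg) hz).const_mul _) (fun v => ?_)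
  have h3 := h1 z hz v
  have h4 := h2 z hz v
  calc F z v ≤ C * ‖v‖ := h4
    _ = C / c * (c * ‖v‖) := by field_simp
    _ ≤ C / c * nm g z v := by gcongr

theorem aestronglyMeasurable_di (hg : IsMetric g) (hF : IsLen F) :
    AEStronglyMeasurable (di g F) (volume.restrict (M n)) := by
  have hopen : IsOpen {p : E n × E n | g p.1 p.2 p.2 < 1} :=
    isOpen_lt (continuous_form hg) continuous_const
  have hM : MeasurableSet (M n ×ˢ (univ : Set (E n))) :=
    measurableSet_closedBall.prod MeasurableSet.univ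
  have h1 : AEStronglyMeasurable (fun p : E n × E n =>
      {p : E n × E n | g p.1 p.2 p.2 < 1}.indicator (fun p => F p.1 p.2) p)
      ((volume.restrict (M n)).prod (volume : Measure (E n))) := by
    refine AEStronglyMeasurable.indicator ?_ hopen.measurableSet
    have h2 := hF.cont.aestronglyMeasurable (μ := (volume : Measure (E n × E n))) hM
    rw [Measure.volume_eq_prod] at h2
    have h3 := Measure.prod_restrict (μ := (volume : Measure (E n)))
      (ν := (volume : Measure (E n))) (M n) univ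
    rw [Measure.restrict_univ] at h3
    rw [h3]
    exact h2
  have h2 := h1.integral_prod_right'
  refine h2.congr (Eventually.of_forall fun z => ?_)
  unfold di
  have hopen2 : IsOpen {v | g z v v < 1} :=
    isOpen_lt (by fun_prop) continuous_const
  rw [← integral_indicator hopen2.measurableSet]
  rfl

theorem integrableOn_mn (hn : 2 ≤ n) (hg : IsMetric g) (hF : IsLen F) :
    IntegrableOn (fun z => mn g F z * √(gram (g z)).det) (M n) := by
  obtain ⟨C, hC, h1⟩ := exists_mn_le hn hg hF
  have hs : Continuous (fun z => √(gram (g z)).det) := (continuous_det hg).sqrt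
  obtain ⟨D, hD⟩ := isCompact_M.exists_bound_of_continuousOn hs.continuousOn
  have hm : AEStronglyMeasurable (fun z => mn g F z * √(gram (g z)).det)
      (volume.restrict (M n)) := by
    have h2 := ((aestronglyMeasurable_di hg hF).aemeasurable.div
      (aestronglyMeasurable_di hg (isLen_nm hg)).aemeasurable).mul hs.measurable.aemeasurable
    exact h2.aestronglyMeasurable
  refine ⟨hm, ?_⟩
  have : IsFiniteMeasure ((volume : Measure (E n)).restrict (M n)) :=
    ⟨by rw [Measure.restrict_apply_univ]; exact measure_closedBall_lt_top⟩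
  refine HasFiniteIntegral.of_bounded (C := C * D) ?_
  refine (ae_restrict_iff' measurableSet_closedBall).2 (Eventually.of_forall fun z hz => ?_)
  rw [norm_mul, Real.norm_eq_abs, abs_of_nonneg (mn_nonneg hF z)]
  exact mul_le_mul (h1 z hz) (hD z hz) (norm_nonneg _) hC

theorem lintegral_mn (hn : 2 ≤ n) (hg : IsMetric g) (hF : IsLen F) :
    ∫⁻ z in ball (0 : E n) 1, ENNReal.ofReal (mn g F z * √(gram (g z)).det) =
      ENNReal.ofReal (∫ z in M n, mn g F z * √(gram (g z)).det) := by
  rw [ofReal_integral_eq_lintegral_ofReal (integrableOn_mn hn hg hF)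
    (Eventually.of_forall fun z => mul_nonneg (mn_nonneg hF z) (Real.sqrt_nonneg _))]
  exact setLIntegral_congr ball_ae_M

/-- **The inequality for the mean.** -/
theorem mean_ineq (hn : 2 ≤ n) (hg : IsSimple g) (hF : IsLen F)
    (hd : ∀ x ∈ bdM n, ∀ y ∈ bdM n, nm g x (lg g x y) ≤ lf g F x y) :
    ∫ z in M n, √(gram (g z)).det ≤ ∫ z in M n, mn g F z * √(gram (g z)).det := by
  have hm := hg.toIsMetric
  have h1 := dl_mono hn hg hF hd
  rw [dl_self hm, dl_mn hn hm hF, ENNReal.mul_le_mul_iff_left (cc_ne_zero hn) cc_ne_top,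
    lintegral_mn hn hm hF, lintegral_vl hm, ENNReal.ofReal_le_ofReal_iff] at h1
  · exact h1
  · exact integral_nonneg (fun z => mul_nonneg (mn_nonneg hF z) (Real.sqrt_nonneg _))

/-- **The case of equality.** -/
theorem mean_eq_case (hn : 2 ≤ n) (hg : IsSimple g) (hF : IsLen F)
    (hd : ∀ x ∈ bdM n, ∀ y ∈ bdM n, nm g x (lg g x y) ≤ lf g F x y)
    (h : ∫ z in M n, mn g F z * √(gram (g z)).det ≤ ∫ z in M n, √(gram (g z)).det) :
    ∀ x ∈ bdM n, ∀ y ∈ bdM n, x ≠ y → lf g F x y = nm g x (lg g x y) := by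
  have hm := hg.toIsMetric
  intro x hx y hy hxy
  refine lf_eq hn hg hF hd ?_ hx hy hxy
  rw [dl_self hm, dl_mn hn hm hF, ENNReal.mul_le_mul_iff_left (cc_ne_zero hn) cc_ne_top,
    lintegral_mn hn hm hF, lintegral_vl hm]
  exact ENNReal.ofReal_le_ofReal h

end Pool.Agent.V5helper78.EM
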