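import Pool.Agent.V5helper78.EM.Fin

/-!
# The map given by the exponential maps at a boundary point
-/

set_option autoImplicit false
set_option maxSynthPendingDepth 3

namespace Pool.Agent.V5helper78.EM

open Set Metric Filter Topology MeasureTheory
open scoped ContDiff InnerProductSpace BigOperators
open Pool.Agent.Q176.BR Pool.Agent.V5helper78.BR

variable {n : ℕ} {g g' : Fld n} {ψ : E n → E n} {x : E n} {L : E n →L[ℝ] E n}

/-- The inverse isometry. -/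
theorem IsIso.inv (h : IsIso g g' x L) :
    ∃ A : E n →L[ℝ] E n, IsIso g' g x A ∧ (∀ v, A (L v) = v) ∧ ∀ v, L (A v) = v := by
  set e := LinearMap.equivOfDetNeZero (L : E n →ₗ[ℝ] E n) h.det with he
  have hL : ∀ v, e v = L v := fun v => rfl
  refine ⟨LinearMap.toContinuousLinearMap (e.symm : E n →ₗ[ℝ] E n), ?_, fun v => ?_, fun v => ?_⟩
  · have h1 : ∀ v, (LinearMap.toContinuousLinearMap (e.symm : E n →ₗ[ℝ] E n)) v = e.symm v :=
      fun v => rfl
    refine ⟨?_, fun q hq => ?_, fun v hv => ?_, fun v w => ?_⟩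
    · have h2 : LinearMap.det (e.symm : E n →ₗ[ℝ] E n) ≠ 0 :=
        (LinearEquiv.isUnit_det' e.symm).ne_zero
      exact h2
    · rw [h1, h.lg_eq q hq, ← hL, e.symm_apply_apply]
    · rw [h1]
      have h2 : e v = v := h.tan v hv
      conv_lhs => rw [← h2]
      exact e.symm_apply_apply v
    · rw [h1, h1, ← h.form, ← hL, ← hL, e.apply_symm_apply, e.apply_symm_apply]
  · change e.symm (e v) = v
    exact e.symm_apply_apply v
  · change e (e.symm v) = v
    exact e.apply_symm_apply v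

/-- The map. -/
noncomputable def pm (g g' : Fld n) (x : E n) (L : E n →L[ℝ] E n) (z : E n) : E n :=
  ex g' x (L (lg g x z))

theorem IsIso.dom (hg : IsSimple g) (hg' : IsSimple g') (hx : x ∈ bdM n) (hL : IsIso g g' x L)
    {z : E n} (hz : z ∈ M n) : L (lg g x z) ∈ dom g' x := by
  have hxM := bd_sub hx
  rcases eq_or_ne x z with rfl | hxz
  · rw [hg.lg_self hxM, map_zero, ← hg'.lg_self hxM]
    exact hg'.lg_mem hxM hxM
  by_cases hb : z ∈ ball (0 : E n) 1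
  swap
  · rw [← hL.lg_eq z (mem_bd_of_not_ball hz hb)]
    exact hg'.lg_mem hxM hz
  obtain ⟨q, hq, t, ht, h1⟩ := exists_exit hg hxM hb hxz
  have hti : t ∈ Icc (0 : ℝ) 1 := ⟨ht.1.le, ht.2.le⟩
  obtain ⟨h2, h3⟩ := ex_smul hg' hxM (bd_sub hq) hti
  rw [h1, map_smul, ← hL.lg_eq q hq, ← h3]
  exact hg'.lg_mem hxM h2

theorem IsIso.pm_mem (hg : IsSimple g) (hg' : IsSimple g') (hx : x ∈ bdM n) (hL : IsIso g g' x L)
    {z : E n} (hz : z ∈ M n) : pm g g' x L z ∈ M n :=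
  (hg'.isExp_ex (hL.dom hg hg' hx hz)).tgt

theorem IsIso.lg_pm (hg : IsSimple g) (hg' : IsSimple g') (hx : x ∈ bdM n) (hL : IsIso g g' x L)
    {z : E n} (hz : z ∈ M n) : lg g' x (pm g g' x L z) = L (lg g x z) :=
  hg'.lg_ex (bd_sub hx) (hL.dom hg hg' hx hz)

theorem IsIso.pm_bd (hg' : IsSimple g') (hx : x ∈ bdM n) (hL : IsIso g g' x L)
    {q : E n} (hq : q ∈ bdM n) : pm g g' x L q = q := by
  unfold pm
  rw [← hL.lg_eq q hq, hg'.ex_lg (bd_sub hx) (bd_sub hq)]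

/-- It is a smooth map which fixes the boundary. -/
theorem IsIso.isMp (hg : IsSimple g) (hg' : IsSimple g') (hx : x ∈ bdM n) (hL : IsIso g g' x L) :
    IsMp (pm g g' x L) where
  smooth := by
    have h1 := hg.contDiffOn_lg (bd_sub hx)
    exact (hg'.contDiffOn_ex (bd_sub hx)).comp (L.contDiff.comp_contDiffOn h1)
      (fun z hz => hL.dom hg hg' hx hz)
  maps z hz := hL.pm_mem hg hg' hx hz
  bd q hq := hL.pm_bd hg' hx hq

/-- The two maps are inverse to each other. -/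
theorem IsIso.pm_pm (hg : IsSimple g) (hg' : IsSimple g') (hx : x ∈ bdM n) (hL : IsIso g g' x L)
    {A : E n →L[ℝ] E n} (hAL : ∀ v, A (L v) = v) {z : E n} (hz : z ∈ M n) :
    pm g' g x A (pm g g' x L z) = z := by
  have h1 : pm g' g x A (pm g g' x L z) = ex g x (A (lg g' x (pm g g' x L z))) := rfl
  rw [h1, hL.lg_pm hg hg' hx hz, hAL, hg.ex_lg (bd_sub hx) hz]

theorem IsIso.pm_inj (hg : IsSimple g) (hg' : IsSimple g') (hx : x ∈ bdM n) (hL : IsIso g g' x L) :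
    InjOn (pm g g' x L) (M n) := by
  obtain ⟨A, -, hAL, -⟩ := hL.inv
  intro z hz y hy h
  rw [← hL.pm_pm hg hg' hx hAL hz, ← hL.pm_pm hg hg' hx hAL hy, h]

theorem IsEq.eq_pm (hn : 2 ≤ n) (h : IsEq g g' ψ) (hx : x ∈ bdM n) (hL : IsIso g g' x L) {z : E n}
    (hz : z ∈ M n) : ψ z = pm g g' x L z := by
  refine lg_inj h.hg' (bd_sub hx) (h.hψ.maps hz) (hL.pm_mem h.hg h.hg' hx hz) ?_
  rw [h.polar hn hx hz hL, hL.lg_pm h.hg h.hg' hx hz]

/-- The inverse is smooth. -/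
theorem IsEq.inv (hn : 2 ≤ n) (h : IsEq g g' ψ) :
    ∃ G : E n → E n, InvOn G ψ (M n) (M n) ∧ ContDiffOn ℝ ∞ G (M n) := by
  have hg := h.hg
  have hg' := h.hg'
  have := nontriv hn
  obtain ⟨x, hx⟩ : (bdM n).Nonempty := NormedSpace.sphere_nonempty.2 zero_le_one
  obtain ⟨L, hL⟩ := h.iso hx
  obtain ⟨A, hA, hAL, hLA⟩ := hL.inv
  refine ⟨pm g' g x A, ⟨fun z hz => ?_, fun p hp => ?_⟩, (hA.isMp hg' hg hx).smooth⟩
  · rw [h.eq_pm hn hx hL hz, hL.pm_pm hg hg' hx hAL hz]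
  · rw [h.eq_pm hn hx hL (hA.pm_mem hg' hg hx hp), hA.pm_pm hg' hg hx hLA hp]

end Pool.Agent.V5helper78.EM
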