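import Pool.Agent.V5helper78.EM.Cone

/-!
# Metrics which are proportional on the geodesic spheres around a boundary point
-/

set_option autoImplicit false
set_option maxSynthPendingDepth 3

namespace Pool.Agent.V5helper78.EM

open Set Metric Filter Topology MeasureTheory
open scoped ContDiff InnerProductSpace BigOperators ENNReal
open Pool.Agent.Q176.BR Pool.Agent.V5helper78.BR

variable {n : ℕ} {g g' : Fld n} {ψ : E n → E n} {x : E n} {L : E n →L[ℝ] E n}

theorem tr_le (hn : 2 ≤ n) (hg : IsMetric g) (hg' : IsMetric g') {z : E n} (hz : z ∈ M n) {k : ℕ}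
    {s : ℝ} (hk : 2 ≤ k) (hs : 0 < s) (htr : tg g g' z = n + (s - 1) * k)
    (hdet : (gram (g' z)).det = (gram (g z)).det * s ^ k) :
    mn (g := g) (F := nm g') z ≤ 1 + (√(gram (g' z)).det / √(gram (g z)).det - 1) / n := by
  refine (mn_le hn hg hg' hz).trans ?_
  have hpos : 0 < (gram (g z)).det := hg.det_pos z
  have hJ : √(gram (g' z)).det / √(gram (g z)).det = √s ^ k := by
    rw [hdet, Real.sqrt_mul hpos.le, mul_div_cancel_left₀ _ (Real.sqrt_pos.2 hpos).ne']
    have e4 : s ^ k = (√s ^ k) ^ 2 := by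
      rw [← pow_mul, mul_comm, pow_mul, Real.sq_sqrt hs.le]
    rw [e4, Real.sqrt_sq (by positivity)]
  rw [htr, hJ]
  exact pc_num hn hk hs

theorem lin_sum (f : E n →L[ℝ] ℝ) (v : E n) : f v = ∑ i, v i * f (bs i) := by
  conv_lhs => rw [← sum_bs v]
  simp only [map_sum, map_smul, smul_eq_mul]

/-- The trace and the determinant of a perturbation of rank one. -/
theorem rank_one (hg : IsMetric g) {z u : E n} {s c : ℝ} (hs : 0 < s)
    (h : ∀ v w, g' z v w = s * g z v w + c * (g z u v * g z u w)) :
    tg g g' z = s * n + c * g z u u ∧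
      (gram (g' z)).det = (gram (g z)).det * (s ^ n * (1 + c / s * g z u u)) := by
  set G := gram (g z) with hG
  set A : Matrix (Fin n) (Fin 1) ℝ := Matrix.of fun i _ => u i with hA
  have hpos : 0 < G.det := hg.det_pos z
  have hu : IsUnit G.det := hpos.ne'.isUnit
  have h1 : ∀ (j : Fin 1) (w : Fin n), g z u (bs w) = (A.transpose * G) j w := by
    intro j w
    rw [Matrix.mul_apply, hg.symm z u, lin_sum (g z (bs w)) u]
    refine Finset.sum_congr rfl (fun a _ => ?_)
    rw [hg.symm z (bs w)]
    rfl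
  have h2 : (A.transpose * G) * A = (g z u u) • (1 : Matrix (Fin 1) (Fin 1) ℝ) := by
    ext i j
    have hij : i = j := Subsingleton.elim i j
    rw [Matrix.mul_apply, Matrix.smul_apply, hij, Matrix.one_apply_eq, smul_eq_mul, mul_one,
      lin_sum (g z u) u]
    refine Finset.sum_congr rfl (fun a _ => ?_)
    rw [← h1 j a, mul_comm]
    rfl
  have hsym : G.transpose = G := by
    ext i j
    exact hg.symm z _ _
  have h3 : gram (g' z) = G * (s • (1 + (c / s) • (A * (A.transpose * G)))) := by
    have e1 : G * (s • (1 + (c / s) • (A * (A.transpose * G)))) =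
        s • G + c • ((A.transpose * G).transpose * (A.transpose * G)) := by
      rw [Matrix.mul_smul, Matrix.mul_add, Matrix.mul_one, Matrix.mul_smul, smul_add, smul_smul,
        mul_div_cancel₀ _ hs.ne', Matrix.transpose_mul,
        Matrix.transpose_transpose, hsym, Matrix.mul_assoc]
    rw [e1]
    ext a b
    rw [gram_apply, h]
    simp only [Matrix.add_apply, Matrix.smul_apply, smul_eq_mul,
      Matrix.mul_apply (M := (A.transpose * G).transpose),
      Matrix.transpose_apply (A.transpose * G)]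
    rw [Fin.sum_univ_one, ← h1, ← h1]
    rfl
  constructor
  · unfold tg
    rw [h3, ← Matrix.mul_assoc, Matrix.nonsing_inv_mul _ hu, Matrix.one_mul, Matrix.trace_smul,
      Matrix.trace_add, Matrix.trace_one, Matrix.trace_smul, Matrix.trace_mul_comm, h2,
      Matrix.trace_smul, Matrix.trace_one]
    simp only [Fintype.card_fin, smul_eq_mul, Nat.cast_one, mul_one]
    field_simp
  · rw [h3, Matrix.det_mul]
    congr 1
    have e2 : (c / s) • (A * (A.transpose * G)) = A * ((c / s) • (A.transpose * G)) := by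
      rw [Matrix.mul_smul]
    rw [Matrix.det_smul, Fintype.card_fin, e2, Matrix.det_one_add_mul_comm, Matrix.smul_mul, h2]
    congr 1
    simp

/-- The derivative of the map. -/
theorem IsIso.pm_der (hg : IsSimple g) (hg' : IsSimple g') (hx : x ∈ bdM n) (hL : IsIso g g' x L)
    {z : E n} (hz : z ∈ M n) (w : E n) :
    dlg g' x (pm g g' x L z) (dp (pm g g' x L) z w) = L (dlg g x z w) := by
  have hxM := bd_sub hx
  have hψ := hL.isMp hg hg' hx
  have h1 := (hg'.hasFDeriv hxM (hL.pm_mem hg hg' hx hz)).comp z (hψ.dpd hz) hψ.maps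
  have h2 : HasFDerivWithinAt (lg g' x ∘ pm g g' x L) (L.comp (dlg g x z)) (M n) z := by
    refine (L.hasFDerivAt.comp_hasFDerivWithinAt z (hg.hasFDeriv hxM hz)).congr ?_ ?_
    · intro y hy
      exact hL.lg_pm hg hg' hx hy
    · exact hL.lg_pm hg hg' hx hz
  have h3 := uniqueDiff z hz |>.eq h1 h2
  exact congrArg (fun A => A w) h3

/-- The radial vector is mapped to the radial vector. -/
theorem IsIso.pm_tv (hg : IsSimple g) (hg' : IsSimple g') (hx : x ∈ bdM n) (hL : IsIso g g' x L)
    {z : E n} (hz : z ∈ M n) :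
    dp (pm g g' x L) z (tv g x z) = tv g' x (pm g g' x L z) := by
  have hxM := bd_sub hx
  have h1 := hL.pm_der hg hg' hx hz (tv g x z)
  unfold tv at h1 ⊢
  rw [hg.dlg_ilg hxM hz, ← hL.lg_pm hg hg' hx hz] at h1
  rw [← h1, hg'.ilg_dlg hxM (hL.pm_mem hg hg' hx hz)]

/-- In the radial direction the two metrics agree. -/
theorem IsIso.pl_tv (hg : IsSimple g) (hg' : IsSimple g') (hx : x ∈ bdM n) (hL : IsIso g g' x L)
    {z : E n} (hz : z ∈ M n) (w : E n) :
    pl g' (pm g g' x L) z (tv g x z) w = g z (tv g x z) w := by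
  have hxM := bd_sub hx
  rw [pl_apply, hL.pm_tv hg hg' hx hz, hg'.gauss hxM (hL.pm_mem hg hg' hx hz),
    hL.pm_der hg hg' hx hz, hL.lg_pm hg hg' hx hz, hL.form, hg.gauss hxM hz]

theorem pl_symm (hg' : IsMetric g') (z v w : E n) : pl g' ψ z v w = pl g' ψ z w v :=
  hg'.symm _ _ _

theorem IsIso.pm_dp_inj (hg : IsSimple g) (hg' : IsSimple g') (hx : x ∈ bdM n)
    (hL : IsIso g g' x L) {z : E n} (hz : z ∈ M n) {w : E n} (hw : dp (pm g g' x L) z w = 0) :
    w = 0 := by
  have hxM := bd_sub hx
  have h1 := hL.pm_der hg hg' hx hz w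
  rw [hw, map_zero] at h1
  have h2 := hL.inj h1.symm
  rw [← hg.ilg_dlg hxM hz w, h2, map_zero]

theorem IsIso.pl_metric (hg : IsSimple g) (hg' : IsSimple g') (hx : x ∈ bdM n)
    (hL : IsIso g g' x L) {z : E n} (hz : z ∈ M n) :
    IsMetric (fun _ : E n => pl g' (pm g g' x L) z) := by
  refine ⟨contDiff_const, fun _ v w => pl_symm hg'.toIsMetric z v w, fun _ v hv => ?_⟩
  exact hg'.pos _ _ (fun h1 => hv (hL.pm_dp_inj hg hg' hx hz h1))

/-- The form of the pull-back. -/
theorem IsIso.pl_form (hg : IsSimple g) (hg' : IsSimple g') (hx : x ∈ bdM n) (hL : IsIso g g' x L)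
    {z : E n} (hz : z ∈ M n) (hxz : x ≠ z) {s : ℝ}
    (h : ∀ w, g z (tv g x z) w = 0 → pl g' (pm g g' x L) z w w = s * g z w w) (v w : E n) :
    pl g' (pm g g' x L) z v w = s * g z v w +
      (1 - s) / g z (tv g x z) (tv g x z) * (g z (tv g x z) v * g z (tv g x z) w) := by
  have hm := hg.toIsMetric
  set u := tv g x z with hu
  set b := pl g' (pm g g' x L) z with hb
  have hu0 : u ≠ 0 := by
    intro h0
    have h1 : dlg g x z u = lg g x z := hg.dlg_ilg (bd_sub hx) hz _
    rw [h0, map_zero] at h1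
    exact hg.lg_ne_zero (bd_sub hx) hz hxz h1.symm
  have hguu := hm.pos z u hu0
  have hbu : ∀ w, b u w = g z u w := fun w => hL.pl_tv hg hg' hx hz w
  have hbs : ∀ v w, b v w = b w v := pl_symm hg'.toIsMetric z
  have key : ∀ v, b v v = s * g z v v + (1 - s) / g z u u * (g z u v * g z u v) := by
    intro v
    set a := g z u v / g z u u with ha
    have h1 : g z u (v - a • u) = 0 := by
      rw [map_sub, map_smul, smul_eq_mul, ha]
      field_simp
      ring
    have h2 := h _ h1
    simp only [map_sub, map_smul, sub_apply, smul_apply, smul_eq_mul] at h2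
    rw [hbs v u, hbu, hbu, hm.symm z v u] at h2
    have h3 : g z u v = a * g z u u := by
      rw [ha]
      field_simp
    rw [h3] at h2 ⊢
    have h4 : (1 - s) / g z u u * (a * g z u u * (a * g z u u)) = (1 - s) * a * a * g z u u := by
      field_simp
    rw [h4]
    linarith
  have h1 := key (v + w)
  have h2 := key v
  have h3 := key w
  simp only [map_add, add_apply] at h1
  rw [hbs w v, hm.symm z w v] at h1
  linarith

/-- **The inequality of the cone.** -/
theorem IsIso.sph_cone (hn : 3 ≤ n) (hg : IsSimple g) (hg' : IsSimple g') (hx : x ∈ bdM n)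
    (hL : IsIso g g' x L) {z : E n} (hz : z ∈ M n)
    (h : x ≠ z → ∃ s : ℝ, 0 < s ∧
      ∀ w, g z (tv g x z) w = 0 → pl g' (pm g g' x L) z w w = s * g z w w) :
    mn g (fp g' (pm g g' x L)) z ≤
      1 + (√(gram (pl g' (pm g g' x L) z)).det / √(gram (g z)).det - 1) / n := by
  have hm := hg.toIsMetric
  have hn2 : 2 ≤ n := by omega
  have hG := hL.pl_metric hg hg' hx hz
  rcases eq_or_ne x z with rfl | hxz
  · have hxM := bd_sub hx
    have e1 : pl g' (pm g g' x L) x = g x := by
      have e2 : ∀ w, dp (pm g g' x L) x w = L w := by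
        intro w
        have e3 := hL.pm_der hg hg' hx hz w
        rw [hL.pm_bd hg' hx hx, dlg_self hg hxM, dlg_self hg' hxM] at e3
        exact e3
      ext v w
      rw [pl_apply, hL.pm_bd hg' hx hx, e2, e2, hL.form]
    have h1 := rank_one (g := g) (g' := fun _ : E n => pl g' (pm g g' x L) x) (z := x) (u := 0)
      (s := 1) (c := 0) hm one_pos (fun v w => by rw [e1]; simp)
    refine tr_le (k := 2) (s := 1) hn2 hm hG hz le_rfl one_pos ?_ ?_
    · rw [h1.1]
      simp
    · rw [h1.2]
      simp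
  · obtain ⟨s, hs, h1⟩ := h hxz
    have h2 := hL.pl_form hg hg' hx hz hxz h1
    set u := tv g x z with hu
    have hu0 : u ≠ 0 := by
      intro h0
      have h1 : dlg g x z u = lg g x z := hg.dlg_ilg (bd_sub hx) hz _
      rw [h0, map_zero] at h1
      exact hg.lg_ne_zero (bd_sub hx) hz hxz h1.symm
    have hguu := hm.pos z u hu0
    have h3 := rank_one (g := g) (g' := fun _ : E n => pl g' (pm g g' x L) z) hm hs h2
    obtain ⟨m, rfl⟩ : ∃ m, n = m + 1 := ⟨n - 1, by omega⟩
    refine tr_le (k := m) (s := s) hn2 hm hG hz (by omega) hs ?_ ?_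
    · rw [h3.1]
      push_cast
      field_simp
      ring
    · rw [h3.2]
      field_simp
      ring

end Pool.Agent.V5helper78.EM
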