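import Pool.Agent.V5helper78.EM.Tri
import Pool.Agent.V5helper78.EM.Brd

/-!
# Partners
-/

set_option autoImplicit false
set_option maxSynthPendingDepth 3

namespace Pool.Agent.V5helper78.EM

open Set Metric Filter Topology MeasureTheory
open scoped ContDiff InnerProductSpace BigOperators
open Pool.Agent.Q176.BR Pool.Agent.V5helper78.BR

section
variable {n : ℕ} {g g' : Fld n} {ψ : E n → E n}

/-- The first variation of the distance at the boundary. -/
theorem first_var_bd2 (hg : IsSimple g) (hg' : IsSimple g') {q q' p : E n} (hq : q ∈ M n)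
    (hq' : q' ∈ M n) (hp : p ∈ bdM n)
    (hd : ∀ y ∈ bdM n, rdist g' q' y = rdist g q y) {w : E n} (hw : ⟪p, w⟫_ℝ = 0) :
    g' p (tv g' q' p) w = g p (tv g q p) w := by
  have hp1 : ‖p‖ = 1 := mem_sphere_zero_iff_norm.1 hp
  have hpM : p ∈ M n := bd_sub hp
  have hne : ∀ s : ℝ, p + s • w ≠ 0 := by
    intro s h
    have h1 := congrArg (fun z => ⟪p, z⟫_ℝ) h
    simp only [inner_add_right, inner_smul_right, hw, real_inner_self_eq_norm_sq, hp1,
      inner_zero_right] at h1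
    norm_num at h1
  have key : ∀ (G : Fld n) (q : E n), IsSimple G → q ∈ M n →
      HasDerivAt (fun s : ℝ => G q (lg G q (rad (p + s • w))) (lg G q (rad (p + s • w))))
        (2 * G p (tv G q p) w) 0 := by
    intro G q hG hq
    have h2 : HasDerivAt (fun s : ℝ => lg G q (rad (p + s • w))) (dlg G q p w) 0 := by
      have h3 : HasFDerivWithinAt (lg G q) (dlg G q p) (M n)
          ((fun s : ℝ => rad (p + s • w)) 0) := by
        simp only [zero_smul, add_zero, rad_eq hp1]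
        exact hG.hasFDeriv hq hpM
      have h4 := h3.comp_hasDerivWithinAt (f := fun s : ℝ => rad (p + s • w)) (0 : ℝ)
        (rad_curve hp1 w).hasDerivWithinAt (s := univ) (fun s _ => bd_sub (rad_mem (hne s)))
      rw [hw, zero_smul, sub_zero, hasDerivWithinAt_univ] at h4
      exact h4
    have h5 := hasDerivAt_form hG.toIsMetric (hasDerivAt_const (0 : ℝ) q) h2 h2
    refine h5.congr_deriv ?_
    simp only [zero_smul, add_zero, map_zero, zero_apply, zero_add, rad_eq hp1]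
    rw [hG.symm q (dlg G q p w), hG.gauss hq hpM]
    ring
  have h1 := key g q hg hq
  have h2 := key g' q' hg' hq'
  have h3 : (fun s : ℝ => g' q' (lg g' q' (rad (p + s • w))) (lg g' q' (rad (p + s • w)))) =
      fun s : ℝ => g q (lg g q (rad (p + s • w))) (lg g q (rad (p + s • w))) := by
    funext s
    have hb := rad_mem (hne s)
    have h4 := hd _ hb
    rw [hg.rdist_eq hq (bd_sub hb), hg'.rdist_eq hq' (bd_sub hb)] at h4
    exact (Real.sqrt_inj (hg'.toIsMetric.nonneg _ _) (hg.toIsMetric.nonneg _ _)).1 h4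
  rw [h3] at h2
  have h4 := h2.unique h1
  linarith

/-- The comparison isometry maps the points to their partners. -/
theorem HasPt.iso (h : HasPt g g') {x : E n} (hx : x ∈ bdM n) :
    ∃ L : E n →L[ℝ] E n, IsIso g g' x L ∧ ∀ z ∈ ball (0 : E n) 1, ∀ z', IsPt g g' z z' →
      lg g' x z' = L (lg g x z) := by
  have hg := h.hg
  have hg' := h.hg'
  have hxM := bd_sub hx
  have hm := hg.toIsMetric
  have hm' := hg'.toIsMetric
  have hx1 : ‖x‖ = 1 := mem_sphere_zero_iff_norm.1 hx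
  have hxx : ⟪x, x⟫_ℝ = 1 := by rw [real_inner_self_eq_norm_sq, hx1, one_pow]
  obtain ⟨L, hL0, hLx, hform, hlg, htan⟩ := exists_iso hg hg' h.bd hx
  refine ⟨L, ⟨hL0.ne', hlg, htan, hform⟩, fun z hz z' hz' => ?_⟩
  have hzM : z ∈ M n := ball_subset_closedBall hz
  have hzx : x ≠ z := (ne_of_ball hz hx).symm
  have heq := fun y hy => h.eq hz hz' (y := y) hy
  have hz'x : x ≠ z' := by
    rintro rfl
    have h1 := heq x hx
    rw [rdist_self hg' hxM, rdist_nm hg hzM hxM] at h1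
    exact (nm_pos hm (hg.lg_ne_zero hzM hxM hzx.symm)).ne h1
  set a := lg g x z with ha
  set a' := lg g' x z' with ha'
  have h1 : ∀ t, ⟪x, t⟫_ℝ = 0 → g' x a' t = g' x (L a) t := by
    intro t ht
    have h2 := first_var_bd2 hg hg' hzM hz'.1 hx heq ht
    have h3 := hform a t
    rw [htan t ht] at h3
    rw [h3, ha, ha', hg.lg_symm hzM hxM, hg'.lg_symm hz'.1 hxM]
    simp only [map_neg, neg_apply]
    rw [h2]
  have h2 : g' x a' a' = g' x (L a) (L a) := by
    have h4 := heq x hx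
    rw [rdist_symm hg hzM hxM, rdist_symm hg' hz'.1 hxM, hg.rdist_eq hxM hzM,
      hg'.rdist_eq hxM hz'.1] at h4
    rw [hform]
    exact (Real.sqrt_inj (hm'.nonneg _ _) (hm.nonneg _ _)).1 h4
  obtain ⟨N', hN'⟩ := hm'.exists_riesz x (innerSL ℝ x)
  simp only [innerSL_apply_apply] at hN'
  have hN0' : N' ≠ 0 := by
    rintro rfl
    have := hN' x
    rw [map_zero, zero_apply, hxx] at this
    norm_num at this
  have hκ := hm'.pos x N' hN0'
  set κ := g' x N' N' with hκdef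
  have hxN' : ⟪x, N'⟫_ℝ = κ := by rw [← hN']
  set d := a' - L a with hd
  have h3 : ∀ t, ⟪x, t⟫_ℝ = 0 → g' x d t = 0 := by
    intro t ht
    rw [hd, map_sub, sub_apply, h1 t ht, sub_self]
  have h4 : d = (g' x d N' / κ) • N' := by
    refine hm'.ext (x := x) (fun z => ?_)
    have h5 := h3 (z - (⟪x, z⟫_ℝ / κ) • N') (by
      rw [inner_sub_right, inner_smul_right, hxN']
      field_simp
      ring)
    rw [map_sub, map_smul, smul_eq_mul, sub_eq_zero] at h5
    rw [h5, map_smul, smul_apply, smul_eq_mul, hN']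
    ring
  set c := g' x d N' / κ with hc
  have h5 : a' = L a + c • N' := by rw [← h4, hd]; abel
  have h6 : ⟪x, L a⟫_ℝ < 0 := by
    rw [hLx]
    exact mul_neg_of_pos_of_neg hL0 (inner_lg_neg hg hx hzM hzx)
  have h7 : ⟪x, a'⟫_ℝ < 0 := inner_lg_neg hg' hx hz'.1 hz'x
  have h8 : c * (2 * ⟪x, L a⟫_ℝ + c * κ) = 0 := by
    rw [h5] at h2
    simp only [map_add, map_smul, add_apply, smul_apply, smul_eq_mul] at h2
    rw [hm'.symm x (L a) N', hN', ← hκdef] at h2
    linarith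
  have h9 : c = 0 := by
    by_contra hc0
    have h10 := (mul_eq_zero.1 h8).resolve_left hc0
    rw [h5, inner_add_right, inner_smul_right, hxN'] at h7
    linarith
  rw [h5, h9, zero_smul, add_zero]

/-- The partners give an isometry. -/
theorem HasPt.isEq (hn : 2 ≤ n) (h : HasPt g g') : ∃ ψ, IsEq g g' ψ := by
  have hg := h.hg
  have hg' := h.hg'
  have := nontriv hn
  obtain ⟨x0, hx0⟩ : (bdM n).Nonempty := NormedSpace.sphere_nonempty.2 zero_le_one
  obtain ⟨L0, hL0, hP0⟩ := h.iso hx0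
  have hψ := hL0.isMp hg hg' hx0
  set ψ := pm g g' x0 L0 with hψdef
  -- the value is the partner
  have hval : ∀ z ∈ ball (0 : E n) 1, ∀ z', IsPt g g' z z' → ψ z = z' := by
    intro z hz z' hz'
    refine lg_inj hg' (bd_sub hx0) (hψ.maps (ball_subset_closedBall hz)) hz'.1 ?_
    rw [hP0 z hz z' hz', hψdef, hL0.lg_pm hg hg' hx0 (ball_subset_closedBall hz)]
  refine ⟨ψ, ⟨hg, hg', hψ, h.bd, fun x hx y hy hxy => ?_⟩⟩
  have hxM := bd_sub hx
  have hyM := bd_sub hy
  obtain ⟨L, hL, hP⟩ := h.iso hx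
  obtain ⟨γ, u, hγ, rfl, rfl, hu0, -⟩ := hg.exists_geod hxM hyM
  obtain ⟨γ', u', hγ', e0, e1, hu0', -⟩ := hg'.exists_geod hxM hyM
  have hu0n : u 0 ≠ 0 := by
    rw [hu0]
    exact hg.lg_ne_zero hxM hyM hxy
  -- the image of the geodesic
  have himg : ∀ t ∈ Icc (0 : ℝ) 1, ψ (γ t) = γ' t := by
    intro t ht
    rcases eq_or_lt_of_le ht.1 with h3 | h3
    · rw [← h3, hψ.bd _ hx, e0]
    rcases eq_or_lt_of_le ht.2 with h4 | h4
    · rw [h4, hψ.bd _ hy, e1]
    have hb := mem_ball_zero_iff.2 (hγ.inner_mem hg hu0n ⟨h3, h4⟩)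
    obtain ⟨z', hz'⟩ := h.hp _ hb
    rw [hval _ hb _ hz']
    refine lg_inj hg' hxM hz'.1 (hγ'.mem t ht) ?_
    have h5 := hγ'.lg_eq hg' ht
    rw [e0, hu0', hL.lg_eq _ hy, ← hu0] at h5
    rw [hP _ hb _ hz', h5, hγ.lg_eq hg ht, map_smul]
  have hvel : ∀ t ∈ Icc (0 : ℝ) 1, dp ψ (γ t) (u t) = u' t := by
    intro t ht
    have h1 := (hψ.crv hγ).der t ht
    have h2 := (hγ'.vel t ht).congr himg (himg t ht)
    exact (uniqueDiffOn_Icc (zero_lt_one (α := ℝ)) t ht).eq_deriv _ h1 h2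
  rw [lf_geod hg hγ]
  have h1 : ∀ t ∈ uIcc (0 : ℝ) 1, fp g' ψ (γ t) (u t) = nm g' (γ 0) (lg g' (γ 0) (γ 1)) := by
    intro t ht
    rw [uIcc_of_le zero_le_one] at ht
    unfold fp
    rw [himg t ht, hvel t ht, ← hu0']
    unfold nm
    rw [hγ'.speed hg'.toIsMetric t ht, e0]
  rw [intervalIntegral.integral_congr h1]
  simp

end

section
open Pool.Agent.V5helper78 Pool.Agent.Q176
variable {n : ℕ} {g g' : E n → E n → E n → ℝ}

theorem result_partner (hn : 2 ≤ n) (hg : SM.IsSimple g) (hg' : SM.IsSimple g')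
    (hd : ∀ x ∈ bdM n, ∀ y ∈ bdM n, SM.rdist g x y ≤ SM.rdist g' x y)
    (hp : ∀ x ∈ ball (0 : E n) 1, ∃ x' ∈ M n, ∀ y ∈ bdM n, SM.rdist g' x' y ≤ SM.rdist g x y) :
    ∃ ψ : E n → E n, SM.IsDiffeo ψ (M n) (M n) ∧ (∀ x ∈ bdM n, ψ x = x) ∧
      ∀ x ∈ M n, ML.pull g' ψ x = g x := by
  have hm := hg.toIsMetric
  have hm' := hg'.toIsMetric
  have h : HasPt (clm g) (clm g') := by
    refine ⟨clm_simple hg, clm_simple hg', fun x hx y hy => ?_, fun z hz => ?_⟩
    · rw [clm_rdist hm, clm_rdist hm']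
      exact hd x hx y hy
    · obtain ⟨z', hz', h1⟩ := hp z hz
      refine ⟨z', hz', fun y hy => ?_⟩
      rw [clm_rdist hm, clm_rdist hm']
      exact h1 y hy
  obtain ⟨ψ, h2⟩ := h.isEq hn
  refine ⟨ψ, ⟨h2.bij hn, h2.hψ.smooth, h2.inv hn⟩, h2.hψ.bd, fun x hx => ?_⟩
  funext v w
  rw [pull_eq hm', h2.isom hn hx, clm_apply hm]

end

end Pool.Agent.V5helper78.EM
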