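import Pool.Agent.V5helper78.EM.Map2

/-!
# The pull back of the metric
-/

set_option autoImplicit false
set_option maxSynthPendingDepth 3

namespace Pool.Agent.V5helper78.EM

open Set Metric Filter Topology MeasureTheory
open scoped ContDiff InnerProductSpace BigOperators
open Pool.Agent.Q176.BR Pool.Agent.V5helper78.BR

variable {n : ℕ} {g g' : Fld n} {ψ : E n → E n}

/-- The pull back of `g'`. -/
noncomputable def pl (g' : Fld n) (ψ : E n → E n) : Fld n :=
  fun z => (g' (ψ z)).bilinearComp (dp ψ z) (dp ψ z)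

theorem pl_apply (z v w : E n) : pl g' ψ z v w = g' (ψ z) (dp ψ z v) (dp ψ z w) := rfl

theorem IsMp.contDiffOn_pl (h : IsMp ψ) (hg' : IsMetric g') : ContDiffOn ℝ ∞ (pl g' ψ) (M n) := by
  rw [contDiffOn_clm_apply]
  intro v
  rw [contDiffOn_clm_apply]
  intro w
  have c1 : ContDiffOn ℝ ∞ (fun z => g' (ψ z)) (M n) := hg'.smooth.comp_contDiffOn h.smooth
  exact (c1.clm_apply (h.dps.clm_apply contDiffOn_const)).clm_apply
    (h.dps.clm_apply contDiffOn_const)

/-- The pull back, changed near the boundary. -/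
noncomputable def cm (χ : ContDiffBump (0 : E n)) (g g' : Fld n) (ψ : E n → E n) : Fld n :=
  fun z => χ z • pl g' ψ z + (1 - χ z) • g z

theorem cm_metric (hn : 2 ≤ n) (h : IsEq g g' ψ) (χ : ContDiffBump (0 : E n))
    (hχ : χ.rOut < 1) : IsMetric (cm χ g g' ψ) where
  smooth := by
    rw [contDiff_iff_contDiffAt]
    intro z
    by_cases hz : z ∈ ball (0 : E n) 1
    · have c1 : ContDiffAt ℝ ∞ (pl g' ψ) z :=
        (h.hψ.contDiffOn_pl h.hg'.toIsMetric).contDiffAt (M_nhds hz)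
      exact (χ.contDiffAt.smul c1).add
        ((contDiffAt_const.sub χ.contDiffAt).smul h.hg.smooth.contDiffAt)
    · have h1 : z ∈ (closedBall (0 : E n) χ.rOut)ᶜ := by
        intro h2
        rw [mem_closedBall_zero_iff] at h2
        rw [mem_ball_zero_iff, not_lt] at hz
        linarith
      have h2 : cm χ g g' ψ =ᶠ[𝓝 z] g := by
        filter_upwards [isClosed_closedBall.isOpen_compl.mem_nhds h1] with y hy
        unfold cm
        have h3 : χ y = 0 := χ.zero_of_le_dist (by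
          rw [mem_compl_iff, mem_closedBall, not_le] at hy
          exact hy.le)
        rw [h3, zero_smul, zero_add, sub_zero, one_smul]
      exact h.hg.smooth.contDiffAt.congr_of_eventuallyEq h2
  symm z v w := by
    unfold cm
    simp only [add_apply, smul_apply, smul_eq_mul, pl_apply]
    rw [h.hg'.symm, h.hg.symm]
  pos z v hv := by
    unfold cm
    simp only [add_apply, smul_apply, smul_eq_mul, pl_apply]
    have h1 := h.hg.pos z v hv
    have h2 := χ.le_one (x := z)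
    rcases (χ.nonneg (x := z)).lt_or_eq with h3 | h3
    · have hz : z ∈ ball (0 : E n) 1 := by
        by_contra hz
        rw [mem_ball_zero_iff, not_lt] at hz
        have h4 : χ z = 0 := χ.zero_of_le_dist (by
          rw [dist_zero_right]
          linarith)
        exact h3.ne' h4
      have h4 : 0 < g' (ψ z) (dp ψ z v) (dp ψ z v) :=
        h.hg'.pos _ _ (fun h5 => hv (h.inj hn hz h5))
      have h5 : 0 < χ z * g' (ψ z) (dp ψ z v) (dp ψ z v) := mul_pos h3 h4
      have h6 : 0 ≤ (1 - χ z) * g z v v := mul_nonneg (by linarith) h1.le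
      linarith
    · rw [← h3]
      linarith

theorem cm_nhds (χ : ContDiffBump (0 : E n)) {z : E n} (hz : z ∈ ball (0 : E n) χ.rIn) :
    cm χ g g' ψ =ᶠ[𝓝 z] pl g' ψ := by
  filter_upwards [isOpen_ball.mem_nhds hz] with y hy
  unfold cm
  rw [χ.one_of_mem_closedBall (ball_subset_closedBall hy), one_smul, sub_self, zero_smul,
    add_zero]

theorem cm_eq (χ : ContDiffBump (0 : E n)) {z : E n} (hz : z ∈ ball (0 : E n) χ.rIn) :
    cm χ g g' ψ z = pl g' ψ z := (cm_nhds χ hz).self_of_nhds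

theorem dp_symm (h : IsMp ψ) {z : E n} (hz : z ∈ ball (0 : E n) 1) (v w : E n) :
    fderiv ℝ (dp ψ) z v w = fderiv ℝ (dp ψ) z w v := by
  have h1 : dp ψ =ᶠ[𝓝 z] fderiv ℝ ψ := by
    filter_upwards [isOpen_ball.mem_nhds hz] with y hy
    exact fderivWithin_of_mem_nhds (M_nhds hy)
  have h2 : ContDiffAt ℝ ∞ ψ z := h.smooth.contDiffAt (M_nhds hz)
  rw [h1.fderiv_eq]
  exact symm2 h2 v w

/-- The derivative of the pull back. -/
theorem fderiv_pl (h : IsMp ψ) (hg' : IsMetric g') {G : Fld n} (hG : IsMetric G) {z : E n}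
    (hz : z ∈ ball (0 : E n) 1) (hGz : G =ᶠ[𝓝 z] pl g' ψ) (k v w : E n) :
    fderiv ℝ G z k v w = fderiv ℝ g' (ψ z) (dp ψ z k) (dp ψ z v) (dp ψ z w) +
      g' (ψ z) (fderiv ℝ (dp ψ) z k v) (dp ψ z w) +
      g' (ψ z) (dp ψ z v) (fderiv ℝ (dp ψ) z k w) := by
  have hzM : z ∈ M n := ball_subset_closedBall hz
  have d1 : HasFDerivAt ψ (dp ψ z) z := (h.dpd hzM).hasFDerivAt (M_nhds hz)
  have d2 : HasFDerivAt (dp ψ) (fderiv ℝ (dp ψ) z) z :=
    hasFDerivAt_of_inf (h.dps.contDiffAt (M_nhds hz))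
  have d3 : HasFDerivAt (fun y => g' (ψ y)) ((fderiv ℝ g' (ψ z)).comp (dp ψ z)) z :=
    (hg'.hasFDerivAt (ψ z)).comp z d1
  have d4 := (d3.clm_apply (d2.clm_apply (hasFDerivAt_const v z))).clm_apply
    (d2.clm_apply (hasFDerivAt_const w z))
  have d5 := ((hG.hasFDerivAt z).clm_apply (hasFDerivAt_const v z)).clm_apply
    (hasFDerivAt_const w z)
  have e1 : (fun y => G y v w) =ᶠ[𝓝 z] fun y => g' (ψ y) (dp ψ y v) (dp ψ y w) := by
    filter_upwards [hGz] with y hy
    rw [hy]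
    rfl
  have d6 := congrArg (fun T : E n →L[ℝ] ℝ => T k) (d5.unique (d4.congr_of_eventuallyEq e1))
  simp only [add_apply, ContinuousLinearMap.comp_apply,
    ContinuousLinearMap.flip_apply, zero_apply, map_zero, zero_add] at d6
  rw [d6]
  ring

/-- The acceleration of the geodesics of the pull back. -/
theorem acc_pl (h : IsMp ψ) (hg' : IsMetric g') {G : Fld n} (hG : IsMetric G) {z : E n}
    (hz : z ∈ ball (0 : E n) 1) (hGz : G =ᶠ[𝓝 z] pl g' ψ) {v a : E n}
    (ha : IsAcc g' (ψ z) (dp ψ z v) (fderiv ℝ (dp ψ) z v v + dp ψ z a)) : IsAcc G z v a := by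
  intro w
  have h1 := ha (dp ψ z w)
  have h2 : G z a w = g' (ψ z) (dp ψ z a) (dp ψ z w) := by
    rw [hGz.self_of_nhds]
    rfl
  rw [fderiv_pl h hg' hG hz hGz, fderiv_pl h hg' hG hz hGz, h2, dp_symm h hz w v]
  simp only [map_add, add_apply] at h1
  rw [hg'.symm (ψ z) (fderiv ℝ (dp ψ) z v w) (dp ψ z v)]
  linarith

/-- The image of an inner point is an inner point. -/
theorem IsEq.ball_crv (hn : 2 ≤ n) (h : IsEq g g' ψ) {γ u : ℝ → E n} (hγ : IsGeod g γ u)
    (h0 : γ 0 ∈ bdM n) (h1 : γ 1 ∈ bdM n) (hne : γ 0 ≠ γ 1) {t : ℝ} (ht : t ∈ Ioo (0 : ℝ) 1) :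
    ψ (γ t) ∈ ball (0 : E n) 1 := by
  have hg' := h.hg'
  have hti : t ∈ Icc (0 : ℝ) 1 := ⟨ht.1.le, ht.2.le⟩
  have hcrv := h.hψ.crv hγ
  have hmin := h.min hγ h0 h1 hne
  have h2 := h.lg_crv hγ h0 h1 hne hti
  have h3 := h.dst_pos hn hγ h0 h1 hne (t := t) ⟨ht.1, ht.2.le⟩
  have h4 : 0 < nm g' (γ 0) (lg g' (γ 0) (γ 1)) :=
    nm_pos hg'.toIsMetric (hg'.lg_ne_zero (bd_sub h0) (bd_sub h1) hne)
  have hu0 := u0_ne h.hg hγ hne
  -- the distance is strictly increasing
  have h5 : nm g' (γ 0) (lg g' (γ 0) (ψ (γ t))) < nm g' (γ 0) (lg g' (γ 0) (γ 1)) := by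
    have e1 := dst_eq hg' hcrv hmin hti
    have e2 := dst_eq hg' hcrv hmin (t := 1) ⟨zero_le_one, le_rfl⟩
    unfold dst at e1 e2
    simp only [h.hψ.bd _ h0, h.hψ.bd _ h1] at e1 e2
    rw [e1, e2]
    have hspd := continuous_spd hg'.toIsMetric hcrv
    rw [← intervalIntegral.integral_add_adjacent_intervals (hspd.intervalIntegrable 0 t)
      (hspd.intervalIntegrable t 1)]
    have h6 : 0 < ∫ r in t..1, spd g' (fun t => ψ (γ t)) (fun t => dp ψ (γ t) (u t)) r := by
      refine intervalIntegral.intervalIntegral_pos_of_pos_on (hspd.intervalIntegrable t 1)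
        (fun r hr => ?_) ht.2
      have hr' : r ∈ Icc (0 : ℝ) 1 := ⟨ht.1.le.trans hr.1.le, hr.2.le⟩
      have hr2 : r ∈ Ioo (0 : ℝ) 1 := ⟨ht.1.trans hr.1, hr.2⟩
      rw [spd_eq hr']
      refine nm_pos hg'.toIsMetric (fun h7 => ?_)
      have h8 := h.inj hn (mem_ball_zero_iff.2 (hγ.inner_mem h.hg hu0 hr2)) h7
      exact hγ.ne_zero h.hg.toIsMetric hu0 hr' h8
    linarith
  have h6 := ex_smul_ball hg' (bd_sub h0) (bd_sub h1) hne
    (t := nm g' (γ 0) (lg g' (γ 0) (ψ (γ t))) / nm g' (γ 0) (lg g' (γ 0) (γ 1)))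
    ⟨div_pos h3 h4, (div_lt_one h4).2 h5⟩
  rw [← h2, hg'.ex_lg (bd_sub h0) (hcrv.mem t hti)] at h6
  exact h6

end Pool.Agent.V5helper78.EM
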