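import Pool.Agent.V5helper78.EM.Pull

/-!
# The map is an isometry
-/

set_option autoImplicit false
set_option maxSynthPendingDepth 3

namespace Pool.Agent.V5helper78.EM

open Set Metric Filter Topology MeasureTheory
open scoped ContDiff InnerProductSpace BigOperators
open Pool.Agent.Q176.BR Pool.Agent.V5helper78.BR

variable {n : ℕ} {g g' : Fld n} {ψ : E n → E n}

theorem IsEq.dch_crv (hn : 2 ≤ n) (h : IsEq g g' ψ) {χ : ContDiffBump (0 : E n)}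
    (hχ : χ.rOut < 1) {γ u : ℝ → E n} (hγ : IsGeod g γ u)
    (h0 : γ 0 ∈ bdM n) (h1 : γ 1 ∈ bdM n) (hne : γ 0 ≠ γ 1) {t : ℝ} (ht : t ∈ Ioo (0 : ℝ) 1)
    (hχt : γ t ∈ ball (0 : E n) χ.rIn) :
    ∃ m : ℝ, dch g (cm χ g g' ψ) (γ t) (u t) (u t) = m • u t := by
  have hg := h.hg
  have hg' := h.hg'
  have hm' := hg'.toIsMetric
  have hG := cm_metric hn h χ hχ
  have hti : t ∈ Icc (0 : ℝ) 1 := ⟨ht.1.le, ht.2.le⟩
  have hu0 := u0_ne hg hγ hne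
  have hzb : γ t ∈ ball (0 : E n) 1 := mem_ball_zero_iff.2 (hγ.inner_mem hg hu0 ht)
  have hcrv := h.hψ.crv hγ
  have hmin := h.min hγ h0 h1 hne
  have hc0 : ψ (γ 0) = γ 0 := h.hψ.bd _ h0
  have hin := fun s (hs : s ∈ Ioo (0 : ℝ) 1) => h.ball_crv hn hγ h0 h1 hne (t := s) hs
  have hpos := fun s (hs : s ∈ Ioo (0 : ℝ) 1) => h.dst_pos hn hγ h0 h1 hne (t := s) ⟨hs.1, hs.2.le⟩
  obtain ⟨a, ha, hacc⟩ := hγ.acc t hti
  rw [hg.toIsMetric.isAcc_iff] at hacc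
  have hγd : HasDerivAt γ (u t) t := (hγ.vel t hti).hasDerivAt (Icc_mem_nhds ht.1 ht.2)
  have hud : HasDerivAt u a t := ha.hasDerivAt (Icc_mem_nhds ht.1 ht.2)
  -- the derivative of the velocity of the image
  have d1 : HasFDerivAt ψ (dp ψ (γ t)) (γ t) :=
    (h.hψ.dpd (hγ.mem t hti)).hasFDerivAt (M_nhds hzb)
  have d2 : HasFDerivAt (dp ψ) (fderiv ℝ (dp ψ) (γ t)) (γ t) :=
    hasFDerivAt_of_inf (h.hψ.dps.contDiffAt (M_nhds hzb))
  have hcd : HasDerivAt (fun s => ψ (γ s)) (dp ψ (γ t) (u t)) t :=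
    HasFDerivAt.comp_hasDerivAt (f := γ) t d1 hγd
  have hdd : HasDerivAt (fun s => dp ψ (γ s) (u s))
      (fderiv ℝ (dp ψ) (γ t) (u t) (u t) + dp ψ (γ t) a) t :=
    (HasFDerivAt.comp_hasDerivAt (f := γ) t d2 hγd).clm_apply hud
  -- the velocity is proportional to the field of the terminal velocities
  set X : E n → E n := tv g' (γ 0) with hX
  have hXd : HasDerivAt (fun s => X (ψ (γ s)))
      (fderiv ℝ X (ψ (γ t)) (dp ψ (γ t) (u t))) t :=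
    HasFDerivAt.comp_hasDerivAt (f := fun s => ψ (γ s)) t
      (hasFDerivAt_of_inf (tv_at hg' (bd_sub h0) (hin t ht))) hcd
  have hvel : ∀ s ∈ Ioo (0 : ℝ) 1, ∃ l : ℝ, 0 < l ∧ dp ψ (γ s) (u s) = l • X (ψ (γ s)) := by
    intro s hs
    have hsi : s ∈ Icc (0 : ℝ) 1 := ⟨hs.1.le, hs.2.le⟩
    have hp : 0 < dst g' (fun t => ψ (γ t)) s := by
      unfold dst
      simp only [hc0]
      exact hpos s hs
    have h2 := vel_min hg' hcrv hmin hs hp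
    simp only [hc0] at h2
    refine ⟨_, div_pos (nm_pos hm' (fun h3 => ?_)) hp, h2⟩
    have h4 := h.inj hn (mem_ball_zero_iff.2 (hγ.inner_mem hg hu0 hs)) h3
    exact hγ.ne_zero hg.toIsMetric hu0 hsi h4
  have hXne : ∀ s ∈ Ioo (0 : ℝ) 1, X (ψ (γ s)) ≠ 0 := by
    intro s hs h2
    obtain ⟨l, hl, h3⟩ := hvel s hs
    rw [h2, smul_zero] at h3
    have h4 := h.inj hn (mem_ball_zero_iff.2 (hγ.inner_mem hg hu0 hs)) h3
    exact hγ.ne_zero hg.toIsMetric hu0 ⟨hs.1.le, hs.2.le⟩ h4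
  set l : ℝ → ℝ := fun s => g' (ψ (γ s)) (X (ψ (γ s))) (dp ψ (γ s) (u s)) /
    g' (ψ (γ s)) (X (ψ (γ s))) (X (ψ (γ s))) with hl
  have hl1 : ∀ s ∈ Ioo (0 : ℝ) 1, 0 < l s ∧ dp ψ (γ s) (u s) = l s • X (ψ (γ s)) := by
    intro s hs
    obtain ⟨k, hk, h3⟩ := hvel s hs
    have h4 : l s = k := by
      simp only [hl]
      rw [h3, map_smul, smul_eq_mul, mul_div_cancel_right₀ _ (hm'.pos _ _ (hXne s hs)).ne']
    rw [h4]
    exact ⟨hk, h3⟩
  have hGd : HasDerivAt (fun s => g' (ψ (γ s))) (fderiv ℝ g' (ψ (γ t)) (dp ψ (γ t) (u t))) t :=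
    HasFDerivAt.comp_hasDerivAt (f := fun s => ψ (γ s)) t (hm'.hasFDerivAt _) hcd
  have hld : DifferentiableAt ℝ l t :=
    (((hGd.clm_apply hXd).clm_apply hdd).div ((hGd.clm_apply hXd).clm_apply hXd)
      (hm'.pos _ _ (hXne t ht)).ne').differentiableAt
  obtain ⟨k, hk⟩ : ∃ k, HasDerivAt l k t := ⟨_, hld.hasDerivAt⟩
  have h3 := hk.smul hXd
  have h4 : (fun s => dp ψ (γ s) (u s)) =ᶠ[𝓝 t] fun s => l s • X (ψ (γ s)) := by
    filter_upwards [Ioo_mem_nhds ht.1 ht.2] with s hs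
    exact (hl1 s hs).2
  have h5 := hdd.unique (h3.congr_of_eventuallyEq h4)
  have h6 := tv_field hg' (bd_sub h0) (hin t ht)
  obtain ⟨hl0, hlv⟩ := hl1 t ht
  set c := l t with hc
  set p := ψ (γ t) with hp
  set m := (c ^ 2 + k) / c with hm
  -- the acceleration of the image, corrected
  have h7 : IsAcc g' p (dp ψ (γ t) (u t))
      (fderiv ℝ (dp ψ) (γ t) (u t) (u t) + dp ψ (γ t) (a - m • u t)) := by
    rw [hm'.isAcc_iff, map_sub, map_smul]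
    have e1 : fderiv ℝ X p (dp ψ (γ t) (u t)) = c • (X p - chr g' p (X p) (X p)) := by
      rw [hlv, map_smul, hX, h6]
    have e2 : chr g' p (dp ψ (γ t) (u t)) (dp ψ (γ t) (u t)) = c ^ 2 • chr g' p (X p) (X p) := by
      rw [hlv, hm'.chr_smul]
    have e3 : m • dp ψ (γ t) (u t) = (c ^ 2 + k) • X p := by
      rw [hlv, smul_smul, hm, div_mul_cancel₀ _ hl0.ne']
    rw [e2, e3]
    have e4 : fderiv ℝ (dp ψ) (γ t) (u t) (u t) + (dp ψ (γ t) a - (c ^ 2 + k) • X p) =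
        (fderiv ℝ (dp ψ) (γ t) (u t) (u t) + dp ψ (γ t) a) - (c ^ 2 + k) • X p := by abel
    rw [e4, h5]
    rw [e1]
    module
  have h8 := acc_pl h.hψ hm' hG hzb (cm_nhds χ hχt) h7
  rw [hG.isAcc_iff] at h8
  refine ⟨m, ?_⟩
  unfold dch
  have h9 : chr g (γ t) (u t) (u t) = -a := by rw [hacc, neg_neg]
  have h10 : chr (cm χ g g' ψ) (γ t) (u t) (u t) = -(a - m • u t) := by rw [h8, neg_neg]
  rw [h9, h10]
  abel

theorem IsEq.dch_all (hn : 2 ≤ n) (h : IsEq g g' ψ) {χ : ContDiffBump (0 : E n)}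
    (hχ : χ.rOut < 1) {z : E n} (hz : z ∈ ball (0 : E n) χ.rIn) (v : E n) :
    ∃ m : ℝ, dch g (cm χ g g' ψ) z v v = m • v := by
  have hG := cm_metric hn h χ hχ
  rcases eq_or_ne v 0 with rfl | hv
  · refine ⟨0, ?_⟩
    have h1 := dch_smul h.hg.toIsMetric hG z (0 : E n) 0
    simpa using h1
  have hzb : z ∈ ball (0 : E n) 1 :=
    ball_subset_ball ((χ.rIn_lt_rOut.trans hχ).le) hz
  obtain ⟨γ, u, hγ, h0, h1, hne, t, ht, hγt, l, hvl⟩ := through h.hg hzb hv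
  obtain ⟨m, hm⟩ := h.dch_crv hn hχ hγ h0 h1 hne ht (by rwa [hγt])
  refine ⟨l * m, ?_⟩
  rw [hvl, dch_smul h.hg.toIsMetric hG, ← hγt, hm, smul_smul, smul_smul]
  congr 1
  ring

/-- The conserved quantity. -/
noncomputable def cq (g g' : Fld n) (ψ : E n → E n) (z v : E n) : ℝ :=
  (n + 1) * Real.log (pl g' ψ z v v) -
    2 * (Real.log (gram (pl g' ψ z)).det - Real.log (gram (g z)).det)

theorem IsEq.cq_inner (hn : 2 ≤ n) (h : IsEq g g' ψ) {γ u : ℝ → E n} (hγ : IsGeod g γ u)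
    (hne : γ 0 ≠ γ 1) {a b : ℝ} (ha : 0 < a) (hab : a < b)
    (hb : b < 1) : cq g g' ψ (γ a) (u a) = cq g g' ψ (γ b) (u b) := by
  have hg := h.hg
  have hu0 := u0_ne hg hγ hne
  have hsub : Icc a b ⊆ Icc (0 : ℝ) 1 := fun s hs => ⟨ha.le.trans hs.1, hs.2.trans hb.le⟩
  -- a radius
  have hcomp : IsCompact (γ '' Icc a b) := isCompact_Icc.image_of_continuousOn (hγ.cont.mono hsub)
  obtain ⟨R, hR0, hR1, hR⟩ : ∃ R : ℝ, 0 < R ∧ R < 1 ∧ ∀ s ∈ Icc a b, ‖γ s‖ < R := by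
    obtain ⟨s0, hs0, hmax⟩ := isCompact_Icc.exists_isMaxOn (nonempty_Icc.2 hab.le)
      ((hγ.cont.mono hsub).norm)
    have h2 : ‖γ s0‖ < 1 := hγ.inner_mem hg hu0 ⟨ha.trans_le hs0.1, hs0.2.trans_lt hb⟩
    refine ⟨(‖γ s0‖ + 1) / 2, by positivity, by linarith, fun s hs => ?_⟩
    have h3 : ‖γ s‖ ≤ ‖γ s0‖ := hmax hs
    linarith
  set χ : ContDiffBump (0 : E n) := ⟨R, (R + 1) / 2, hR0, by linarith⟩ with hχdef
  have hχ : χ.rOut < 1 := by
    change (R + 1) / 2 < 1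
    linarith
  have hG := cm_metric hn h χ hχ
  have hin : ∀ s ∈ Icc a b, γ s ∈ ball (0 : E n) χ.rIn := fun s hs =>
    mem_ball_zero_iff.2 (hR s hs)
  have hba : 0 < b - a := by linarith
  have hmap : ∀ s ∈ Icc (0 : ℝ) 1, a + (b - a) * s ∈ Icc a b := by
    intro s hs
    constructor
    · nlinarith [hs.1]
    · nlinarith [hs.2]
  have hη := hγ.affine a (b - a) (fun s hs => hsub (hmap s hs))
  have hcons := conserved hg.toIsMetric hG hη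
    (smul_ne_zero hba.ne' (hγ.ne_zero hg.toIsMetric hu0 (hsub (hmap 0 ⟨le_rfl, zero_le_one⟩))))
    (fun t ht => ⟨univ, univ_mem, fun z _ => h.dch_all hn hχ
      (hin _ (hmap t ⟨ht.1.le, ht.2.le⟩)) z⟩)
  simp only [mul_zero, add_zero, mul_one, add_sub_cancel] at hcons
  rw [cm_eq χ (hin a ⟨le_rfl, hab.le⟩), cm_eq χ (hin b ⟨hab.le, le_rfl⟩)] at hcons
  have hpa : 0 < pl g' ψ (γ a) (u a) (u a) := by
    refine h.hg'.pos _ _ (fun h3 => ?_)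
    exact hγ.ne_zero hg.toIsMetric hu0 (hsub ⟨le_rfl, hab.le⟩)
      (h.inj hn (mem_ball_zero_iff.2 (hγ.inner_mem hg hu0 ⟨ha, hab.trans hb⟩)) h3)
  have hpb : 0 < pl g' ψ (γ b) (u b) (u b) := by
    refine h.hg'.pos _ _ (fun h3 => ?_)
    exact hγ.ne_zero hg.toIsMetric hu0 (hsub ⟨hab.le, le_rfl⟩)
      (h.inj hn (mem_ball_zero_iff.2 (hγ.inner_mem hg hu0 ⟨ha.trans hab, hb⟩)) h3)
  have e1 : ∀ (z v : E n), 0 < pl g' ψ z v v →
      Real.log (pl g' ψ z ((b - a) • v) ((b - a) • v)) =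
      Real.log ((b - a) * (b - a)) + Real.log (pl g' ψ z v v) := by
    intro z v hv
    simp only [map_smul, smul_apply, smul_eq_mul]
    rw [← mul_assoc, Real.log_mul (mul_pos hba hba).ne' hv.ne']
  rw [e1 _ _ hpa, e1 _ _ hpb] at hcons
  unfold cq
  linarith

end Pool.Agent.V5helper78.EM
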