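import Pool.Agent.V5helper78.EM.Pm

/-!
# The triangle inequality and partners
-/

set_option autoImplicit false
set_option maxSynthPendingDepth 3

namespace Pool.Agent.V5helper78.EM

open Set Metric Filter Topology MeasureTheory
open scoped ContDiff InnerProductSpace BigOperators
open Pool.Agent.Q176.BR Pool.Agent.V5helper78.BR

variable {n : ℕ} {g g' : Fld n} {ψ : E n → E n}

/-- The triangle inequality for a geodesic which avoids `p`. -/
theorem tri_avoid (hg : IsSimple g) {p : E n} (hp : p ∈ M n) {γ u : ℝ → E n} (hγ : IsGeod g γ u)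
    (hne : ∀ t ∈ Icc (0 : ℝ) 1, p ≠ γ t) :
    nm g p (lg g p (γ 1)) ≤ nm g p (lg g p (γ 0)) + nm g (γ 0) (u 0) := by
  have hm := hg.toIsMetric
  set f : ℝ → ℝ := fun t => nm g p (lg g p (γ t)) with hf
  have hlg : ∀ t ∈ Icc (0 : ℝ) 1, lg g p (γ t) ≠ 0 := fun t ht =>
    hg.lg_ne_zero hp (hγ.mem t ht) (hne t ht)
  have hder : ∀ t ∈ Icc (0 : ℝ) 1, HasDerivWithinAt f
      (g (γ t) (tv g p (γ t)) (u t) / f t) (Icc 0 1) t := by
    intro t ht
    have h1 : HasDerivWithinAt (fun s => lg g p (γ s)) (dlg g p (γ t) (u t)) (Icc 0 1) t :=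
      (hg.hasFDeriv hp (hγ.mem t ht)).comp_hasDerivWithinAt t (hγ.vel t ht)
        (fun s hs => hγ.mem s hs)
    have h2 := hasDerivWithinAt_form hm (hasDerivWithinAt_const t (Icc (0 : ℝ) 1) p) h1 h1
    have h3 : g p (lg g p (γ t)) (lg g p (γ t)) ≠ 0 := (hm.pos p _ (hlg t ht)).ne'
    refine (h2.sqrt h3).congr_deriv ?_
    simp only [map_zero, zero_apply, zero_add]
    rw [hm.symm p (dlg g p (γ t) (u t)), hg.gauss hp (hγ.mem t ht)]
    have h4 : f t = √(g p (lg g p (γ t)) (lg g p (γ t))) := rfl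
    rw [h4]
    have h5 : √(g p (lg g p (γ t)) (lg g p (γ t))) ≠ 0 := (nm_pos hm (hlg t ht)).ne'
    field_simp
    ring
  have hbound : ∀ t ∈ Icc (0 : ℝ) 1, g (γ t) (tv g p (γ t)) (u t) / f t ≤ nm g (γ 0) (u 0) := by
    intro t ht
    have h1 : 0 < f t := nm_pos hm (hlg t ht)
    rw [div_le_iff₀ h1]
    have h2 := hm.cauchy (γ t) (tv g p (γ t)) (u t)
    rw [hγ.speed hm t ht, hg.norm_tv hp (hγ.mem t ht)] at h2
    rw [mul_comm]
    exact h2
  have h1 := image_le_of_deriv_right_le_deriv_boundary (f := f)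
    (f' := fun t => g (γ t) (tv g p (γ t)) (u t) / f t) (a := 0) (b := 1)
    (fun t ht => (hder t ht).continuousWithinAt)
    (fun t ht => (hder t ⟨ht.1, ht.2.le⟩).mono_of_mem_nhdsWithin
      (Icc_mem_nhdsGE_of_mem ht)) (B := fun t => f 0 + t * nm g (γ 0) (u 0))
    (B' := fun _ => nm g (γ 0) (u 0)) (by simp) (by fun_prop)
    (fun t ht => by
      have := ((hasDerivAt_id t).mul_const (nm g (γ 0) (u 0))).const_add (f 0)
      simpa using this.hasDerivWithinAt)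
    (fun t ht => hbound t ⟨ht.1, ht.2.le⟩) (right_mem_Icc.2 zero_le_one)
  simpa using h1

theorem rdist_symm (hg : IsSimple g) {x y : E n} (hx : x ∈ M n) (hy : y ∈ M n) :
    rdist g x y = rdist g y x := by
  rw [rdist_nm hg hx hy, rdist_nm hg hy hx, nm_lg_symm hg hx hy]

theorem rdist_self (hg : IsSimple g) {x : E n} (hx : x ∈ M n) : rdist g x x = 0 := by
  rw [rdist_nm hg hx hx, hg.lg_self hx]
  simp [nm]

theorem rdist_nonneg (hg : IsSimple g) {x y : E n} (hx : x ∈ M n) (hy : y ∈ M n) :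
    0 ≤ rdist g x y := by
  rw [rdist_nm hg hx hy]
  exact nm_nonneg _ _

/-- The triangle inequality. -/
theorem tri (hg : IsSimple g) {p z q : E n} (hp : p ∈ bdM n) (hz : z ∈ M n) (hq : q ∈ bdM n) :
    rdist g p q ≤ rdist g z p + rdist g z q := by
  have hpM := bd_sub hp
  have hqM := bd_sub hq
  rcases eq_or_ne p q with rfl | hpq
  · rw [rdist_self hg hpM]
    have := rdist_nonneg hg hz hpM
    linarith
  rcases eq_or_ne z p with rfl | hzp
  · rw [rdist_self hg hpM]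
    linarith
  rcases eq_or_ne z q with rfl | hzq
  · rw [rdist_self hg hqM, rdist_symm hg hpM hqM]
    linarith
  obtain ⟨γ, u, hγ, h0, h1, hu0, -⟩ := hg.exists_geod hz hqM
  have hu : u 0 ≠ 0 := by
    rw [hu0]
    exact hg.lg_ne_zero hz hqM hzq
  have h2 := tri_avoid hg hpM hγ (fun t ht => ?_)
  · rw [h0, h1, hu0] at h2
    rw [rdist_nm hg hpM hqM, rdist_symm hg hz hpM, rdist_nm hg hpM hz, rdist_nm hg hz hqM]
    exact h2
  · rcases eq_or_lt_of_le ht.1 with h3 | h3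
    · rw [← h3, h0]
      exact hzp.symm
    rcases eq_or_lt_of_le ht.2 with h4 | h4
    · rw [h4, h1]
      exact hpq
    · intro h5
      have h6 := hγ.inner_mem hg hu ⟨h3, h4⟩
      rw [← h5, mem_sphere_zero_iff_norm.1 hp] at h6
      exact lt_irrefl _ h6

theorem rdist_geod (hg : IsSimple g) {γ u : ℝ → E n} (hγ : IsGeod g γ u) {t : ℝ}
    (ht : t ∈ Icc (0 : ℝ) 1) : rdist g (γ t) (γ 0) = t * nm g (γ 0) (u 0) ∧
      rdist g (γ t) (γ 1) = (1 - t) * nm g (γ 0) (u 0) := by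
  have hm := hg.toIsMetric
  have m0 := hγ.mem 0 ⟨le_rfl, zero_le_one⟩
  have m1 := hγ.mem 1 ⟨zero_le_one, le_rfl⟩
  have mt := hγ.mem t ht
  constructor
  · rw [rdist_symm hg mt m0, rdist_nm hg m0 mt, hγ.lg_eq hg ht, nm_smul hm, abs_of_nonneg ht.1]
  · have h1 := hγ.reverse.lg_eq hg (t := 1 - t) ⟨by linarith [ht.2], by linarith [ht.1]⟩
    simp only [sub_zero, sub_sub_cancel] at h1
    rw [rdist_symm hg mt m1, rdist_nm hg m1 mt, h1, nm_smul hm, nm_neg,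
      abs_of_nonneg (by linarith [ht.2])]
    congr 1
    unfold nm
    rw [hγ.speed hm 1 ⟨zero_le_one, le_rfl⟩]

/-- A point which is not farther from the boundary points. -/
def IsPt (g g' : Fld n) (z z' : E n) : Prop :=
  z' ∈ M n ∧ ∀ y ∈ bdM n, rdist g' z' y ≤ rdist g z y

/-- The hypotheses. -/
structure HasPt (g g' : Fld n) : Prop where
  hg : IsSimple g
  hg' : IsSimple g'
  hd : ∀ x ∈ bdM n, ∀ y ∈ bdM n, rdist g x y ≤ rdist g' x y
  hp : ∀ z ∈ ball (0 : E n) 1, ∃ z', IsPt g g' z z'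

theorem HasPt.geod (h : HasPt g g') {γ u : ℝ → E n} (hγ : IsGeod g γ u) (h0 : γ 0 ∈ bdM n)
    (h1 : γ 1 ∈ bdM n) {t : ℝ} (ht : t ∈ Icc (0 : ℝ) 1) {z' : E n} (hz : IsPt g g' (γ t) z') :
    rdist g' z' (γ 0) = rdist g (γ t) (γ 0) ∧ rdist g' (γ 0) (γ 1) = rdist g (γ 0) (γ 1) := by
  obtain ⟨e1, e2⟩ := rdist_geod h.hg hγ ht
  have e3 : rdist g (γ 0) (γ 1) = nm g (γ 0) (u 0) := by
    have := (rdist_geod h.hg hγ (t := 0) ⟨le_rfl, zero_le_one⟩).2
    rw [this, sub_zero, one_mul]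
  have h2 := h.hd _ h0 _ h1
  have h3 := tri h.hg' h0 hz.1 h1
  have h4 := hz.2 _ h0
  have h5 := hz.2 _ h1
  rw [e1] at h4
  rw [e2] at h5
  rw [e3] at h2
  constructor
  · rw [e1]
    linarith
  · rw [e3]
    linarith

theorem HasPt.eq (h : HasPt g g') {z z' : E n} (hz : z ∈ ball (0 : E n) 1)
    (hz' : IsPt g g' z z') {y : E n} (hy : y ∈ bdM n) : rdist g' z' y = rdist g z y := by
  have hzM : z ∈ M n := ball_subset_closedBall hz
  have hyz : y ≠ z := (ne_of_ball hz hy).symm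
  obtain ⟨q, hq, t, ht, h1⟩ := exists_exit h.hg (bd_sub hy) hz hyz
  obtain ⟨γ, u, hγ, rfl, rfl, hu0, -⟩ := h.hg.exists_geod (bd_sub hy) (bd_sub hq)
  have hti : t ∈ Icc (0 : ℝ) 1 := ⟨ht.1.le, ht.2.le⟩
  have h2 : γ t = z := by
    rw [hγ.eq_ex h.hg hti, hu0, ← h1, h.hg.ex_lg (bd_sub hy) hzM]
  subst h2
  exact (h.geod hγ hy hq hti hz').1

theorem HasPt.bd (h : HasPt g g') : ∀ x ∈ bdM n, ∀ y ∈ bdM n, rdist g x y = rdist g' x y := by
  intro x hx y hy
  rcases eq_or_ne x y with rfl | hxy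
  · rw [rdist_self h.hg (bd_sub hx), rdist_self h.hg' (bd_sub hx)]
  obtain ⟨γ, u, hγ, rfl, rfl, hu0, -⟩ := h.hg.exists_geod (bd_sub hx) (bd_sub hy)
  have ht : (1 / 2 : ℝ) ∈ Ioo (0 : ℝ) 1 := by norm_num
  have h1 := hγ.inner_mem h.hg (by
    rw [hu0]
    exact h.hg.lg_ne_zero (bd_sub hx) (bd_sub hy) hxy) ht
  obtain ⟨z', hz'⟩ := h.hp _ (mem_ball_zero_iff.2 h1)
  exact (h.geod hγ hx hy ⟨ht.1.le, ht.2.le⟩ hz').2.symm

end Pool.Agent.V5helper78.EM
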